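import Pool.Agent.Y257.CU.Bar

/-! The barrier theorem. -/

open Set Filter Topology Metric MeasureTheory
open scoped ENNReal OnePoint

namespace Pool.Agent.Y257.CU

open Pool.Agent.Helper311.Cusp

lemma floor_close {n : ℕ} {s t : ℝ} (hs : 0 ≤ s) (ht : 0 ≤ t)
    (h : ⌊(n : ℝ) * s⌋₊ = ⌊(n : ℝ) * t⌋₊) : (n : ℝ) * (t - s) < 1 := by
  have a1 : 0 ≤ (n : ℝ) * s := by positivity
  have a2 : 0 ≤ (n : ℝ) * t := by positivity
  have b1 := Nat.floor_le a1
  have c2 := Nat.lt_floor_add_one ((n : ℝ) * t)
  have h' : (⌊(n : ℝ) * s⌋₊ : ℝ) = ⌊(n : ℝ) * t⌋₊ := by exact_mod_cast h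
  rw [← h'] at c2
  have : (n : ℝ) * (t - s) = n * t - n * s := by ring
  linarith

theorem barrier {φ : ℝ → ℝ} (hφ : MonotoneOn φ (Ioi 0))
    (hlow : ∀ c > 0, ∃ᶠ x in 𝓝[>] (0:ℝ), φ x < c * √x) : HasBarriers φ := by
  intro U K' hK hdiam η δ hη hδ
  classical
  have hpi := Real.pi_pos
  have hpi4 : Real.pi < 4 := by linarith [Real.pi_lt_d2]
  rcases K'.eq_empty_or_nonempty with h | ⟨z₀, hz₀⟩
  · subst h
    exact ⟨fun _ => 0, differentiableOn_const _, fun _ _ => le_rfl, fun z hz => absurd hz
      (Set.notMem_empty z), fun _ _ _ => hδ.le⟩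
  have hT : ∀ z : ℂ, ∃ t : ℝ, z ∈ K' → (t ∈ Ioc (-Real.pi) Real.pi ∧ U ⊆ copyG φ z t) := by
    intro z
    by_cases hz : z ∈ K'
    · obtain ⟨-, θ, hθ⟩ := hK z hz
      refine ⟨(Complex.exp (θ * Complex.I)).arg, fun _ => ⟨Complex.arg_mem_Ioc _, ?_⟩⟩
      have h1 : Complex.exp ((Complex.exp (θ * Complex.I)).arg * Complex.I)
          = Complex.exp (θ * Complex.I) := by
        have := Complex.norm_mul_exp_arg_mul_I (Complex.exp (θ * Complex.I))
        rwa [Complex.norm_exp_ofReal_mul_I, Complex.ofReal_one, one_mul] at this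
      unfold copyG at hθ ⊢
      rw [h1]; exact hθ
    · exact ⟨0, fun h => absurd h hz⟩
  choose T hT using hT
  set c : ℝ := δ * η / 800 with hcdef
  have hcpos : 0 < c := by positivity
  obtain ⟨X, hXφ, hX0, hX1⟩ : ∃ X : ℝ, φ X < c * √X ∧ 0 < X ∧ X < min 1 (c ^ 2) := by
    have h := (hlow c hcpos).and_eventually
      (Ioo_mem_nhdsGT (show (0:ℝ) < min 1 (c ^ 2) by positivity))
    obtain ⟨X, h1, h2⟩ := h.exists
    exact ⟨X, h1, h2.1, h2.2⟩
  have hX1' : X < 1 := lt_of_lt_of_le hX1 (min_le_left _ _)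
  have hXc : √X ≤ c := by
    rw [Real.sqrt_le_left hcpos.le]
    exact (lt_of_lt_of_le hX1 (min_le_right _ _)).le
  set q : ℝ := √X with hqdef
  have hq0 : 0 < q := Real.sqrt_pos.mpr hX0
  have hqq : q * q = X := Real.mul_self_sqrt hX0.le
  have hq1 : q < 1 := by nlinarith
  set n : ℕ := ⌊1 / q⌋₊ + 1 with hndef
  have hn1 : 1 / q < n := by rw [hndef]; push_cast; exact Nat.lt_floor_add_one _
  have hn2 : (n : ℝ) ≤ 2 / q := by
    rw [hndef]; push_cast
    have h1 := Nat.floor_le (show (0:ℝ) ≤ 1 / q by positivity)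
    have h2 : 1 ≤ 1 / q := by rw [le_div_iff₀ hq0]; linarith
    have h3 : (2:ℝ) / q = 1 / q + 1 / q := by ring
    linarith
  have hnpos : (0:ℝ) < n := lt_trans (by positivity) hn1
  have hnq : 1 < n * q := by rwa [div_lt_iff₀ hq0] at hn1
  set r : ℝ := X + c * q with hr
  have hrpos : 0 < r := by positivity
  -- sectors
  let sec : ℂ → ℕ := fun z => ⌊(T z + Real.pi) * 2 / Real.pi⌋₊
  let tt : ℕ → ℝ := fun k => -Real.pi + ((k : ℝ) + 1 / 2) * (Real.pi / 2)
  let al : ℂ → ℝ := fun z => T z - tt (sec z)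
  let A : ℂ → ℝ := fun z => ((z - z₀) * Complex.exp (-(tt (sec z) * Complex.I))).im
  have hal : ∀ z ∈ K', |al z| ≤ Real.pi / 4 := by
    intro z hz
    have h1 := (hT z hz).1
    have h0 : 0 ≤ (T z + Real.pi) * 2 / Real.pi := by
      have : 0 ≤ T z + Real.pi := by linarith [h1.1]
      positivity
    have b1 := Nat.floor_le h0
    have b2 := Nat.lt_floor_add_one ((T z + Real.pi) * 2 / Real.pi)
    rw [le_div_iff₀ hpi] at b1
    rw [div_lt_iff₀ hpi] at b2
    simp only [al, tt, sec]
    rw [abs_le]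
    constructor <;> linarith
  have hA : ∀ z ∈ K', |A z| ≤ 1 := by
    intro z hz
    refine (Complex.abs_im_le_norm _).trans ?_
    rw [norm_mul, Complex.norm_exp]
    have h1 := hdiam z hz z₀ hz₀
    rw [dist_eq_norm] at h1
    simpa using h1
  let idx : ℂ → ℕ × ℕ := fun z =>
    (sec z, ⌊(n : ℝ) * (A z + 1)⌋₊ + ⌊(n : ℝ) * (Real.pi / 4 - al z)⌋₊)
  let R : Finset (ℕ × ℕ) := Finset.range 5 ×ˢ Finset.range (4 * n + 1)
  have hRcard : (R.card : ℝ) ≤ 25 * n := by
    simp only [R]
    rw [Finset.card_product, Finset.card_range, Finset.card_range]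
    push_cast
    have : (1:ℝ) ≤ n := by
      have : 1 ≤ n := by rw [hndef]; omega
      exact_mod_cast this
    linarith
  have hidx : ∀ z ∈ K', idx z ∈ R := by
    intro z hz
    have h1 := (hT z hz).1
    have h2 := abs_le.mp (hal z hz)
    have h3 := abs_le.mp (hA z hz)
    simp only [idx, R]
    rw [Finset.mem_product, Finset.mem_range, Finset.mem_range]
    constructor
    · simp only [sec]
      rw [Nat.lt_add_one_iff (m := ⌊(T z + Real.pi) * 2 / Real.pi⌋₊) (n := 4)]
      apply Nat.floor_le_of_le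
      rw [div_le_iff₀ hpi]
      push_cast
      linarith [h1.2]
    · simp only
      have k1 : ⌊(n : ℝ) * (A z + 1)⌋₊ ≤ 2 * n := by
        apply Nat.floor_le_of_le
        push_cast
        nlinarith
      have k2 : ⌊(n : ℝ) * (Real.pi / 4 - al z)⌋₊ ≤ 2 * n := by
        apply Nat.floor_le_of_le
        push_cast
        nlinarith
      omega
  have haux : ∀ z ∈ K', ∀ z' ∈ K', idx z = idx z' → A z ≤ A z' → dist z z' ≤ r := by
    intro z hz z' hz' h hAA
    have hs : sec z = sec z' := (Prod.ext_iff.mp h).1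
    have hsum : ⌊(n : ℝ) * (A z + 1)⌋₊ + ⌊(n : ℝ) * (Real.pi / 4 - al z)⌋₊ =
      ⌊(n : ℝ) * (A z' + 1)⌋₊ + ⌊(n : ℝ) * (Real.pi / 4 - al z')⌋₊ := (Prod.ext_iff.mp h).2
    set t := tt (sec z) with ht
    have ht' : tt (sec z') = t := by rw [ht, hs]
    have c1 := closure_copyG hφ (X := X) (closure_mono (hT z hz).2 (hK z' hz').1)
    have c2 := closure_copyG hφ (X := X) (closure_mono (hT z' hz').2 (hK z hz).1)
    set w := (z' - z) * Complex.exp (-(t * Complex.I)) with hw
    have hwim : w.im = A z' - A z := by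
      simp only [A]
      rw [ht', ← ht, ← Complex.sub_im, hw]
      congr 1; ring
    have hal1 : al z = T z - t := rfl
    have hal2 : al z' = T z' - t := by simp only [al]; rw [ht']
    have e1 : 0 ≤ w.re * Real.cos (al z) + w.im * Real.sin (al z) := by
      have := c1.1
      rw [rot_re (z' - z) t (T z)] at this
      rw [hal1]; exact this
    have e2 : w.re * Real.cos (al z') + w.im * Real.sin (al z') ≤ 0 := by
      have := c2.1
      rw [rot_re (z - z') t (T z')] at this
      have hneg : (z - z') * Complex.exp (-(t * Complex.I)) = -w := by rw [hw]; ring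
      rw [hneg, Complex.neg_re, Complex.neg_im] at this
      rw [hal2]; linarith
    obtain ⟨s1, s2⟩ := sector (hal z hz) (hal z' hz') e1 e2
    have ha0 : 0 ≤ w.im := by rw [hwim]; linarith
    have hdist : dist z z' = ‖w‖ := by
      rw [hw, norm_mul, Complex.norm_exp, dist_comm, dist_eq_norm]
      simp
    rcases ha0.eq_or_lt with h0 | h0
    · -- equal points
      have h1 : |w.re| ≤ 0 := by rw [← h0, abs_zero] at s1; exact s1
      have h2 : ‖w‖ ≤ |w.re| + |w.im| := Complex.norm_le_abs_re_add_abs_im w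
      rw [hdist]
      rw [← h0, abs_zero] at h2
      linarith
    · have hmon := s2 h0
      rw [abs_of_pos h0] at s1
      have b1 := abs_le.mp (hal z hz)
      have b2 := abs_le.mp (hal z' hz')
      have b3 := abs_le.mp (hA z hz)
      have b4 := abs_le.mp (hA z' hz')
      have m1 : ⌊(n : ℝ) * (A z + 1)⌋₊ ≤ ⌊(n : ℝ) * (A z' + 1)⌋₊ :=
        Nat.floor_mono (mul_le_mul_of_nonneg_left (by linarith) hnpos.le)
      have m2 : ⌊(n : ℝ) * (Real.pi / 4 - al z)⌋₊ ≤ ⌊(n : ℝ) * (Real.pi / 4 - al z')⌋₊ :=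
        Nat.floor_mono (mul_le_mul_of_nonneg_left (by linarith) hnpos.le)
      have f1 := floor_close (n := n) (s := A z + 1) (t := A z' + 1) (by linarith) (by linarith)
        (by omega)
      have f2 := floor_close (n := n) (s := Real.pi / 4 - al z) (t := Real.pi / 4 - al z')
        (by linarith) (by linarith) (by omega)
      have g1 : (n : ℝ) * w.im < 1 := by
        rw [hwim]
        have : A z' + 1 - (A z + 1) = A z' - A z := by ring
        rwa [this] at f1
      have g2 : (n : ℝ) * |T z - T z'| < 1 := by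
        have h1 : T z - T z' = al z - al z' := by rw [hal1, hal2]; ring
        rw [h1, abs_of_nonneg (by linarith)]
        have : Real.pi / 4 - al z' - (Real.pi / 4 - al z) = al z - al z' := by ring
        rwa [this] at f2
      have hd2 : dist z z' ≤ 2 * w.im := by
        rw [hdist]
        have := Complex.norm_le_abs_re_add_abs_im w
        rw [abs_of_pos h0] at this
        linarith
      by_contra hcon
      push Not at hcon
      have nz : ∀ (u v : ℂ) (θ : ℝ), ‖(u - v) * Complex.exp (-(θ * Complex.I))‖ = dist u v := by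
        intro u v θ
        rw [norm_mul, Complex.norm_exp]
        simp [dist_eq_norm]
      have p1 : X ≤ ((z' - z) * Complex.exp (-(T z * Complex.I))).re := by
        by_contra hlt
        push Not at hlt
        have h1 := (c1.2.resolve_left (not_le.mpr hlt))
        have h2 := Complex.norm_le_abs_re_add_abs_im ((z' - z) * Complex.exp (-(T z * Complex.I)))
        rw [nz, abs_of_nonneg c1.1, dist_comm] at h2
        rw [hr] at hcon
        linarith
      have p2 : X ≤ ((z - z') * Complex.exp (-(T z' * Complex.I))).re := by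
        by_contra hlt
        push Not at hlt
        have h1 := (c2.2.resolve_left (not_le.mpr hlt))
        have h2 := Complex.norm_le_abs_re_add_abs_im ((z - z') * Complex.exp (-(T z' * Complex.I)))
        rw [nz, abs_of_nonneg c2.1] at h2
        rw [hr] at hcon
        linarith
      have hh := heights z z' (T z) (T z')
      have k1 : 2 * X ≤ dist z z' * |T z - T z'| := by linarith
      have k2 : dist z z' * |T z - T z'| ≤ 2 * w.im * |T z - T z'| :=
        mul_le_mul_of_nonneg_right hd2 (abs_nonneg _)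
      have k3 : ((n : ℝ) * w.im) * ((n : ℝ) * |T z - T z'|) ≤ 1 := by
        have q1 : 0 ≤ (n : ℝ) * w.im := by positivity
        have q2 : 0 ≤ (n : ℝ) * |T z - T z'| := by positivity
        nlinarith
      have k4 : X ≤ w.im * |T z - T z'| := by linarith
      have k5 : (n * q) * (n * q) ≤ 1 := by
        calc (n * q) * (n * q) = n * n * X := by rw [← hqq]; ring
          _ ≤ n * n * (w.im * |T z - T z'|) :=
              mul_le_mul_of_nonneg_left k4 (by positivity)
          _ = ((n : ℝ) * w.im) * ((n : ℝ) * |T z - T z'|) := by ring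
          _ ≤ 1 := k3
      nlinarith
  have hclose : ∀ z ∈ K', ∀ z' ∈ K', idx z = idx z' → dist z z' ≤ r := by
    intro z hz z' hz' h
    rcases le_total (A z) (A z') with h1 | h1
    · exact haux z hz z' hz' h h1
    · rw [dist_comm]; exact haux z' hz' z hz h.symm h1
  let S : Finset (ℕ × ℕ) := R.filter (fun i => ∃ z ∈ K', idx z = i)
  have hrep : ∀ i : ℕ × ℕ, ∃ z : ℂ, i ∈ S → (z ∈ K' ∧ idx z = i) := by
    intro i
    by_cases hi : i ∈ S
    · obtain ⟨z, hz, hzi⟩ := (Finset.mem_filter.mp hi).2
      exact ⟨z, fun _ => ⟨hz, hzi⟩⟩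
    · exact ⟨0, fun h => absurd h hi⟩
  choose rep hrep using hrep
  let ζ : ℕ × ℕ → ℂ → ℂ := fun i x => (x - rep i) * Complex.exp (-(T (rep i) * Complex.I))
  have hζre : ∀ i ∈ S, ∀ x ∈ U, 0 < (ζ i x).re := by
    intro i hi x hx
    have := (hT _ (hrep i hi).1).2 hx
    rw [mem_copyG] at this
    exact this.1
  have hζn : ∀ i x, ‖ζ i x‖ = dist x (rep i) := by
    intro i x
    simp only [ζ]
    rw [norm_mul, Complex.norm_exp]
    simp [dist_eq_norm]
  refine ⟨fun x => ∑ i ∈ S, ((8 * r : ℝ) / (ζ i x + (2 * r : ℝ)) : ℂ), ?_, ?_, ?_, ?_⟩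
  · apply DifferentiableOn.fun_sum
    intro i hi
    apply DifferentiableOn.div (differentiableOn_const _)
    · apply DifferentiableOn.add_const
      apply DifferentiableOn.mul_const
      apply DifferentiableOn.sub_const differentiableOn_id
    · intro x hx h0
      have h1 := congrArg Complex.re h0
      have h2 := hζre i hi x hx
      simp only [Complex.add_re, Complex.ofReal_re, Complex.zero_re] at h1
      linarith
  · intro x hx
    rw [Complex.re_sum]
    exact Finset.sum_nonneg (fun i hi => bar_nonneg hrpos (hζre i hi x hx))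
  · intro z hz
    refine ⟨r, hrpos, ?_⟩
    intro x hx hxz
    rw [Complex.re_sum]
    have hzS : idx z ∈ S := by
      rw [Finset.mem_filter]
      exact ⟨hidx z hz, z, hz, rfl⟩
    have h1 : ‖ζ (idx z) x‖ ≤ 2 * r := by
      rw [hζn]
      have h2 := hclose z hz _ (hrep _ hzS).1 (hrep _ hzS).2.symm
      have h3 := dist_triangle x z (rep (idx z))
      linarith
    refine le_trans (bar_ge_one hrpos (hζre _ hzS x hx) h1) ?_
    exact Finset.single_le_sum (f := fun i => ((8 * r : ℝ) / (ζ i x + (2 * r : ℝ)) : ℂ).re)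
      (fun i hi => bar_nonneg hrpos (hζre i hi x hx)) hzS
  · intro x hx hxη
    rw [Complex.re_sum]
    calc ∑ i ∈ S, ((8 * r : ℝ) / (ζ i x + (2 * r : ℝ)) : ℂ).re
        ≤ ∑ i ∈ S, 8 * r / η := by
          apply Finset.sum_le_sum
          intro i hi
          apply bar_le hrpos hη (hζre i hi x hx)
          rw [hζn]
          exact hxη _ (hrep i hi).1
      _ = (S.card : ℝ) * (8 * r / η) := by rw [Finset.sum_const, nsmul_eq_mul]
      _ ≤ (25 * n) * (8 * r / η) := by
          apply mul_le_mul_of_nonneg_right _ (by positivity)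
          refine le_trans ?_ hRcard
          have : S.card ≤ R.card := Finset.card_filter_le _ _
          exact_mod_cast this
      _ ≤ (25 * (2 / q)) * (8 * r / η) := by
          apply mul_le_mul_of_nonneg_right _ (by positivity)
          linarith
      _ = 400 * (q + c) / η := by
          rw [hr, ← hqq]; field_simp; ring
      _ ≤ 400 * (c + c) / η := by
          gcongr
      _ ≤ δ := by
          rw [div_le_iff₀ hη, hcdef]
          have : 0 < δ * η := by positivity
          linarith

end Pool.Agent.Y257.CU
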