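import Pool.Agent.Y257.CU.Defs

/-! Small barriers for the vertices of copies of a region `{x > 0, |y| < φ x}`, `φ` nondecreasing
with `liminf φ x / √x = 0` at `0`. -/

open Set Filter Topology Metric MeasureTheory
open scoped ENNReal OnePoint

namespace Pool.Agent.Y257.CU

open Pool.Agent.Helper311.Cusp

lemma mem_copyG {φ : ℝ → ℝ} {z₀ : ℂ} {θ : ℝ} {x : ℂ} :
    x ∈ copyG φ z₀ θ ↔ (x - z₀) * Complex.exp (-(θ * Complex.I)) ∈ Wg φ := by
  unfold copyG
  constructor
  · rintro ⟨w, hw, rfl⟩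
    have : (z₀ + Complex.exp (θ * Complex.I) * w - z₀) * Complex.exp (-(θ * Complex.I)) = w := by
      rw [add_sub_cancel_left, mul_comm (Complex.exp _) w, mul_assoc, ← Complex.exp_add]
      simp
    rw [this]; exact hw
  · intro h
    refine ⟨_, h, ?_⟩
    have : Complex.exp (θ * Complex.I) * ((x - z₀) * Complex.exp (-(θ * Complex.I))) = x - z₀ := by
      rw [mul_comm (x - z₀), ← mul_assoc, ← Complex.exp_add]
      simp
    simp only [this]; ring

lemma closure_copyG {φ : ℝ → ℝ} (hφ : MonotoneOn φ (Ioi 0)) {X : ℝ} {z₀ : ℂ}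
    {θ : ℝ} {x : ℂ} (hx : x ∈ closure (copyG φ z₀ θ)) :
    0 ≤ ((x - z₀) * Complex.exp (-(θ * Complex.I))).re ∧
    (X ≤ ((x - z₀) * Complex.exp (-(θ * Complex.I))).re ∨
      |((x - z₀) * Complex.exp (-(θ * Complex.I))).im| ≤ φ X) := by
  have hcl : IsClosed {x : ℂ | 0 ≤ ((x - z₀) * Complex.exp (-(θ * Complex.I))).re ∧
    (X ≤ ((x - z₀) * Complex.exp (-(θ * Complex.I))).re ∨
      |((x - z₀) * Complex.exp (-(θ * Complex.I))).im| ≤ φ X)} := by
    have h1 : IsClosed {x : ℂ | 0 ≤ ((x - z₀) * Complex.exp (-(θ * Complex.I))).re} :=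
      isClosed_le continuous_const (by fun_prop)
    have h2 : IsClosed {x : ℂ | X ≤ ((x - z₀) * Complex.exp (-(θ * Complex.I))).re} :=
      isClosed_le continuous_const (by fun_prop)
    have h3 : IsClosed {x : ℂ | |((x - z₀) * Complex.exp (-(θ * Complex.I))).im| ≤ φ X} :=
      isClosed_le (by fun_prop) continuous_const
    exact h1.inter (h2.union h3)
  have hsub : copyG φ z₀ θ ⊆ {x : ℂ | 0 ≤ ((x - z₀) * Complex.exp (-(θ * Complex.I))).re ∧
    (X ≤ ((x - z₀) * Complex.exp (-(θ * Complex.I))).re ∨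
      |((x - z₀) * Complex.exp (-(θ * Complex.I))).im| ≤ φ X)} := by
    intro y hy
    rw [mem_copyG] at hy
    refine ⟨hy.1.le, ?_⟩
    rcases le_or_gt X ((y - z₀) * Complex.exp (-(θ * Complex.I))).re with h | h
    · exact Or.inl h
    · refine Or.inr (hy.2.le.trans ?_)
      exact hφ hy.1 (hy.1.trans h) h.le
  exact closure_minimal hsub hcl hx

lemma heights (z z' : ℂ) (θ θ' : ℝ) :
    ((z' - z) * Complex.exp (-(θ * Complex.I))).re +
        ((z - z') * Complex.exp (-(θ' * Complex.I))).re ≤ dist z z' * |θ - θ'| := by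
  have h5 : ((z' - z) * Complex.exp (-(θ * Complex.I))).re +
      ((z - z') * Complex.exp (-(θ' * Complex.I))).re
      = ((z' - z) * (Complex.exp (-(θ * Complex.I)) - Complex.exp (-(θ' * Complex.I)))).re := by
    rw [← Complex.add_re]; congr 1; ring
  rw [h5]
  refine le_trans (Complex.re_le_norm _) ?_
  rw [norm_mul]
  have h7 : ‖z' - z‖ = dist z z' := by rw [dist_comm, dist_eq_norm]
  rw [h7]
  apply mul_le_mul_of_nonneg_left _ dist_nonneg
  have h8 : Complex.exp (-(θ * Complex.I)) - Complex.exp (-(θ' * Complex.I))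
      = Complex.exp (-(θ' * Complex.I)) * (Complex.exp (Complex.I * ((θ' - θ : ℝ) : ℂ)) - 1) := by
    rw [mul_sub, ← Complex.exp_add, mul_one]
    congr 2
    push_cast; ring
  rw [h8, norm_mul]
  have h9 : ‖Complex.exp (-(θ' * Complex.I))‖ = 1 := by
    rw [Complex.norm_exp]; simp
  rw [h9, one_mul]
  have := Real.norm_exp_I_mul_ofReal_sub_one_le (x := θ' - θ)
  rw [Real.norm_eq_abs, abs_sub_comm] at this
  exact this

lemma exp_neg_re (α : ℝ) : (Complex.exp (-(α * Complex.I))).re = Real.cos α := by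
  rw [← neg_mul, ← Complex.ofReal_neg, Complex.exp_ofReal_mul_I_re, Real.cos_neg]

lemma exp_neg_im (α : ℝ) : (Complex.exp (-(α * Complex.I))).im = -Real.sin α := by
  rw [← neg_mul, ← Complex.ofReal_neg, Complex.exp_ofReal_mul_I_im, Real.sin_neg]

lemma rot_re (w : ℂ) (t θ : ℝ) : (w * Complex.exp (-(θ * Complex.I))).re =
    (w * Complex.exp (-(t * Complex.I))).re * Real.cos (θ - t) +
      (w * Complex.exp (-(t * Complex.I))).im * Real.sin (θ - t) := by
  have h : w * Complex.exp (-(θ * Complex.I)) =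
      (w * Complex.exp (-(t * Complex.I))) * Complex.exp (-(((θ - t : ℝ) : ℂ) * Complex.I)) := by
    rw [mul_assoc, ← Complex.exp_add]
    congr 2
    push_cast; ring
  rw [h, Complex.mul_re, exp_neg_re, exp_neg_im]
  ring

lemma abs_sin_le_cos {α : ℝ} (hα : |α| ≤ Real.pi / 4) : |Real.sin α| ≤ Real.cos α := by
  have hpi := Real.pi_pos
  have h1 := abs_le.mp hα
  have hc : Real.cos (Real.pi / 4) ≤ Real.cos α := by
    rw [← Real.cos_abs α]
    exact Real.cos_le_cos_of_nonneg_of_le_pi (abs_nonneg _) (by linarith) hα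
  have hs1 : Real.sin α ≤ Real.sin (Real.pi / 4) :=
    Real.sin_le_sin_of_le_of_le_pi_div_two (by linarith) (by linarith) h1.2
  have hs2 : Real.sin (-α) ≤ Real.sin (Real.pi / 4) :=
    Real.sin_le_sin_of_le_of_le_pi_div_two (by linarith) (by linarith) (by linarith)
  rw [Real.sin_neg] at hs2
  rw [Real.sin_pi_div_four] at hs1 hs2
  rw [Real.cos_pi_div_four] at hc
  rw [abs_le]
  constructor <;> linarith

lemma sector {a b α α' : ℝ} (hα : |α| ≤ Real.pi / 4) (hα' : |α'| ≤ Real.pi / 4)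
    (h1 : 0 ≤ b * Real.cos α + a * Real.sin α) (h2 : b * Real.cos α' + a * Real.sin α' ≤ 0) :
    |b| ≤ |a| ∧ (0 < a → α' ≤ α) := by
  have hpi := Real.pi_pos
  have e1 := abs_le.mp hα
  have e2 := abs_le.mp hα'
  have hc : 0 < Real.cos α := Real.cos_pos_of_mem_Ioo ⟨by linarith, by linarith⟩
  have hc' : 0 < Real.cos α' := Real.cos_pos_of_mem_Ioo ⟨by linarith, by linarith⟩
  have hs := abs_sin_le_cos hα
  have hs' := abs_sin_le_cos hα'
  have k1 : |a * Real.sin α| ≤ |a| * Real.cos α := by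
    rw [abs_mul]; exact mul_le_mul_of_nonneg_left hs (abs_nonneg _)
  have k2 : |a * Real.sin α'| ≤ |a| * Real.cos α' := by
    rw [abs_mul]; exact mul_le_mul_of_nonneg_left hs' (abs_nonneg _)
  constructor
  · rw [abs_le]
    constructor
    · have : -(|a| * Real.cos α) ≤ b * Real.cos α := by linarith [(abs_le.mp k1).2]
      by_contra hcon
      push Not at hcon
      have : b * Real.cos α < -|a| * Real.cos α := mul_lt_mul_of_pos_right hcon hc
      linarith
    · have : b * Real.cos α' ≤ |a| * Real.cos α' := by linarith [(abs_le.mp k2).1]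
      exact le_of_mul_le_mul_right this hc'
  · intro ha
    by_contra hcon
    push Not at hcon
    have h3 : 0 ≤ a * Real.sin (α - α') := by
      rw [Real.sin_sub]
      have q1 := mul_nonneg h1 hc'.le
      have q2 := mul_nonneg (neg_nonneg.mpr h2) hc.le
      nlinarith
    have h4 : Real.sin (α - α') < 0 :=
      Real.sin_neg_of_neg_of_neg_pi_lt (by linarith) (by linarith)
    nlinarith

end Pool.Agent.Y257.CU
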