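import Pool.Agent.Y257.CU.Defs

/-! The circle has positive logarithmic capacity. -/

open Set Filter Topology Metric MeasureTheory
open scoped ENNReal OnePoint

namespace Pool.Agent.Y257.CU

open Pool.Agent.Helper311.Cusp

lemma log_int_lt : ∫⁻ u in Icc (-1 : ℝ) 1, ENNReal.ofReal |Real.log u| < ⊤ := by
  have h : IntervalIntegrable Real.log volume (-1) 1 := intervalIntegral.intervalIntegrable_log'
  rw [intervalIntegrable_iff_integrableOn_Icc_of_le (by norm_num)] at h
  have h2 := h.2
  unfold HasFiniteIntegral at h2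
  refine lt_of_le_of_lt (le_of_eq ?_) h2
  refine lintegral_congr fun u => ?_
  rw [Real.enorm_eq_ofReal_abs]

lemma log_int_le {s : ℝ} (hs : s ∈ Ioc (0:ℝ) 1) :
    ∫⁻ t in Ioc (0:ℝ) 1, ENNReal.ofReal |Real.log (s - t)| ≤
      ∫⁻ u in Icc (-1 : ℝ) 1, ENNReal.ofReal |Real.log u| := by
  have h1 : ∫⁻ t in Ioc (0:ℝ) 1, ENNReal.ofReal |Real.log (s - t)| ≤
      ∫⁻ t, (Icc (-1 : ℝ) 1).indicator (fun u => ENNReal.ofReal |Real.log u|) (s - t) := by
    rw [← lintegral_indicator measurableSet_Ioc]
    refine lintegral_mono fun t => ?_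
    by_cases ht : t ∈ Ioc (0:ℝ) 1
    · rw [indicator_of_mem ht, indicator_of_mem]
      exact ⟨by linarith [hs.1, ht.2], by linarith [hs.2, ht.1]⟩
    · rw [indicator_of_notMem ht]
      exact bot_le
  refine h1.trans (le_of_eq ?_)
  rw [lintegral_sub_left_eq_self, lintegral_indicator measurableSet_Icc]

lemma dist_circle {r s t : ℝ} (hr : 0 < r) (hs : s ∈ Ioc (0:ℝ) 1) (ht : t ∈ Ioc (0:ℝ) 1) :
    r / 2 * |s - t| ≤ dist (circleMap 0 r s) (circleMap 0 r t) := by
  have hpi := Real.pi_pos
  have hpi4 : Real.pi < 4 := by linarith [Real.pi_lt_d2]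
  have h1 : circleMap 0 r s - circleMap 0 r t =
      (r : ℂ) * Complex.exp (t * Complex.I) * (Complex.exp (Complex.I * ((s - t : ℝ) : ℂ)) - 1) := by
    unfold circleMap
    rw [mul_sub, mul_assoc (r : ℂ), ← Complex.exp_add, mul_one]
    have : (t : ℂ) * Complex.I + Complex.I * ((s - t : ℝ) : ℂ) = s * Complex.I := by
      push_cast; ring
    rw [this]; ring
  rw [dist_eq_norm, h1, norm_mul, norm_mul, Complex.norm_exp_ofReal_mul_I, Complex.norm_real,
    Real.norm_of_nonneg hr.le, mul_one, Complex.norm_exp_I_mul_ofReal_sub_one, norm_mul,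
    Real.norm_of_nonneg (by norm_num : (0:ℝ) ≤ 2), Real.norm_eq_abs]
  have h2 : |s - t| / 4 ≤ |Real.sin ((s - t) / 2)| := by
    have habs : |s - t| ≤ 1 := by
      rw [abs_le]; constructor <;> linarith [hs.1, hs.2, ht.1, ht.2]
    have h3 : |Real.sin ((s - t) / 2)| = Real.sin (|s - t| / 2) := by
      rcases le_total 0 (s - t) with h | h
      · rw [abs_of_nonneg h, abs_of_nonneg]
        apply Real.sin_nonneg_of_nonneg_of_le_pi (by linarith)
        have := abs_of_nonneg h
        linarith [Real.pi_gt_three]
      · rw [abs_of_nonpos h, neg_div, Real.sin_neg, abs_of_nonpos]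
        have : Real.sin (-((s - t) / 2)) ≥ 0 := by
          apply Real.sin_nonneg_of_nonneg_of_le_pi (by linarith)
          have := abs_of_nonpos h
          linarith [Real.pi_gt_three]
        rw [Real.sin_neg] at this
        linarith
    rw [h3]
    have h4 := Real.mul_le_sin (x := |s - t| / 2) (by positivity) (by linarith [Real.pi_gt_three])
    refine le_trans ?_ h4
    have h5 : (1:ℝ) / 2 ≤ 2 / Real.pi := by
      rw [div_le_div_iff₀ (by norm_num) hpi]; linarith
    have h6 := mul_le_mul_of_nonneg_right h5 (show (0:ℝ) ≤ |s - t| / 2 by positivity)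
    linarith
  have h7 := mul_le_mul_of_nonneg_left h2 (show (0:ℝ) ≤ r * 2 by positivity)
  linarith

theorem capacity_circle {r : ℝ} (hr : 0 < r) {E : Set (OnePoint ℂ)}
    (hE : ∀ z ∈ sphere (0 : ℂ) r, (z : OnePoint ℂ) ∈ E) : HasPositiveCapacity E := by
  classical
  have hmc : Measurable (circleMap (0:ℂ) r) := (continuous_circleMap 0 r).measurable
  refine ⟨sphere 0 r, isCompact_sphere 0 r, hE,
    Measure.map (circleMap 0 r) (volume.restrict (Ioc (0:ℝ) 1)), ?_, ?_, ?_⟩
  · constructor
    rw [Measure.map_apply hmc MeasurableSet.univ, preimage_univ, Measure.restrict_apply_univ,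
      Real.volume_Ioc]
    simp
  · rw [Measure.map_apply hmc isClosed_sphere.measurableSet.compl]
    have : circleMap 0 r ⁻¹' (sphere (0:ℂ) r)ᶜ = ∅ := by
      ext t
      simp only [mem_preimage, mem_compl_iff, mem_empty_iff_false, iff_false, not_not]
      exact circleMap_mem_sphere 0 hr.le t
    rw [this, measure_empty]
  · have hmeas : Measurable (fun z : ℂ => ∫⁻ w, logKernel z w
        ∂(Measure.map (circleMap 0 r) (volume.restrict (Ioc (0:ℝ) 1)))) :=
      measurable_logKernel.lintegral_prod_right'
    rw [lintegral_map hmeas hmc]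
    set M := ENNReal.ofReal |Real.log (r / 2)| +
      ∫⁻ u in Icc (-1 : ℝ) 1, ENNReal.ofReal |Real.log u| with hM
    have hMlt : M < ⊤ := ENNReal.add_lt_top.mpr ⟨ENNReal.ofReal_lt_top, log_int_lt⟩
    have hin : ∀ s ∈ Ioc (0:ℝ) 1, ∫⁻ w, logKernel (circleMap 0 r s) w
        ∂(Measure.map (circleMap 0 r) (volume.restrict (Ioc (0:ℝ) 1))) ≤ M := by
      intro s hs
      have hm2 : Measurable (fun w : ℂ => logKernel (circleMap 0 r s) w) :=
        measurable_logKernel.comp measurable_prodMk_left
      rw [lintegral_map hm2 hmc]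
      calc ∫⁻ t in Ioc (0:ℝ) 1, logKernel (circleMap 0 r s) (circleMap 0 r t)
          ≤ ∫⁻ t in Ioc (0:ℝ) 1, (ENNReal.ofReal |Real.log (r / 2)| +
              ENNReal.ofReal |Real.log (s - t)|) := by
            apply lintegral_mono_ae
            have hne : ∀ᵐ t ∂(volume.restrict (Ioc (0:ℝ) 1)), t ≠ s :=
              Measure.ae_ne _ s
            filter_upwards [hne, ae_restrict_mem measurableSet_Ioc] with t hts ht
            have h1 := dist_circle hr hs ht
            have h2 : 0 < |s - t| := abs_pos.mpr (sub_ne_zero.mpr (Ne.symm hts))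
            have h3 : 0 < r / 2 * |s - t| := by positivity
            have hne' : circleMap 0 r s ≠ circleMap 0 r t := by
              intro h
              rw [h, dist_self] at h1
              linarith
            rw [logKernel, if_neg hne']
            rw [← ENNReal.ofReal_add (abs_nonneg _) (abs_nonneg _)]
            apply ENNReal.ofReal_le_ofReal
            have h4 := Real.log_le_log h3 h1
            rw [Real.log_mul (by positivity) h2.ne', Real.log_abs] at h4
            have h5 := neg_abs_le (Real.log (r / 2))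
            have h6 := neg_abs_le (Real.log (s - t))
            linarith
        _ = ENNReal.ofReal |Real.log (r / 2)| * volume (Ioc (0:ℝ) 1) +
              ∫⁻ t in Ioc (0:ℝ) 1, ENNReal.ofReal |Real.log (s - t)| := by
            rw [lintegral_add_left measurable_const, lintegral_const, Measure.restrict_apply_univ]
        _ ≤ M := by
            rw [Real.volume_Ioc, hM]
            simp only [sub_zero, ENNReal.ofReal_one, mul_one]
            exact add_le_add le_rfl (log_int_le hs)
    calc ∫⁻ s in Ioc (0:ℝ) 1, ∫⁻ w, logKernel (circleMap 0 r s) w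
          ∂(Measure.map (circleMap 0 r) (volume.restrict (Ioc (0:ℝ) 1)))
        ≤ ∫⁻ _s in Ioc (0:ℝ) 1, M := by
          apply lintegral_mono_ae
          filter_upwards [ae_restrict_mem measurableSet_Ioc] with s hs
          exact hin s hs
      _ = M * volume (Ioc (0:ℝ) 1) := by rw [lintegral_const, Measure.restrict_apply_univ]
      _ < ⊤ := by
          rw [Real.volume_Ioc]
          simp only [sub_zero, ENNReal.ofReal_one, mul_one]
          exact hMlt

end Pool.Agent.Y257.CU
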