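import Pool.Agent.Y257.CU.One
import Pool.Agent.Y257.CU.Cap
import Pool.Agent.Y257.CU.Bar

/-! The disc: for a region which contains a disc tangent to the imaginary axis at `0` all boundary
points of a small disc are vertices of copies. -/

open Set Filter Topology Metric MeasureTheory
open scoped ENNReal OnePoint

namespace Pool.Agent.Y257.CU

open Pool.Agent.Helper311.Cusp

lemma disc_cusp {φ : ℝ → ℝ} {c x₀ r : ℝ} (hc : 0 < c)
    (hφ : ∀ x ∈ Ioo (0:ℝ) x₀, c * √x ≤ φ x) (hr : 0 < r) (hrc : 2 * r ≤ c ^ 2) {z : ℂ}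
    (hz : z ∈ sphere (0:ℂ) r) : ∃ θ : ℝ, ball (0:ℂ) r ∩ ball z x₀ ⊆ copyG φ z θ := by
  refine ⟨(-z).arg, ?_⟩
  rintro y ⟨hy1, hy2⟩
  rw [mem_copyG]
  rw [mem_sphere, dist_zero_right] at hz
  rw [mem_ball, dist_zero_right] at hy1
  rw [mem_ball, dist_eq_norm] at hy2
  set e := Complex.exp (-(((-z).arg : ℝ) * Complex.I)) with he
  have hen : ‖e‖ = 1 := by rw [he, Complex.norm_exp]; simp
  have he1 : -z * e = (r : ℂ) := by
    have h1 := Complex.norm_mul_exp_arg_mul_I (-z)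
    rw [norm_neg, hz] at h1
    calc -z * e = ((r : ℂ) * Complex.exp ((-z).arg * Complex.I)) * e := by rw [h1]
      _ = (r : ℂ) * (Complex.exp ((-z).arg * Complex.I) * e) := by ring
      _ = r := by rw [he, ← Complex.exp_add]; simp
  set w := (y - z) * e with hw
  have hwr : w - r = y * e := by rw [hw, ← he1]; ring
  have hwn : ‖w - (r : ℂ)‖ < r := by rw [hwr, norm_mul, hen, mul_one]; exact hy1
  have hw2 : ‖w‖ < x₀ := by rw [hw, norm_mul, hen, mul_one]; exact hy2
  have key : (w.re - r) ^ 2 + w.im ^ 2 < r ^ 2 := by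
    have h1 : ‖w - (r : ℂ)‖ ^ 2 < r ^ 2 := pow_lt_pow_left₀ hwn (norm_nonneg _) two_ne_zero
    rw [← Complex.normSq_eq_norm_sq, Complex.normSq_apply] at h1
    simp only [Complex.sub_re, Complex.sub_im, Complex.ofReal_re, Complex.ofReal_im, sub_zero]
      at h1
    nlinarith
  have him : w.im ^ 2 < 2 * r * w.re := by nlinarith [sq_nonneg w.re]
  have hre : 0 < w.re := by
    by_contra hcon
    push Not at hcon
    nlinarith [sq_nonneg w.im]
  refine ⟨hre, lt_of_lt_of_le ?_ (hφ w.re ⟨hre, lt_of_le_of_lt (Complex.re_le_norm w) hw2⟩)⟩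
  apply abs_lt_of_sq_lt_sq _ (by positivity)
  rw [mul_pow, Real.sq_sqrt hre.le]
  nlinarith

/-- If `c √x ≤ φ x` near `0` then `B_φ(D)` is the whole boundary for every small disc `D`; the
harmonic measure of `B_φ(D)` is one. -/
theorem disc_fails {φ : ℝ → ℝ} {c : ℝ} (hc : 0 < c) (h : ∀ᶠ x in 𝓝[>] (0:ℝ), c * √x ≤ φ x)
    {r : ℝ} (hr : 0 < r) (hrc : 2 * r ≤ c ^ 2) :
    IsOpen (((↑) : ℂ → OnePoint ℂ) '' ball 0 r) ∧ IsConnected (((↑) : ℂ → OnePoint ℂ) '' ball 0 r) ∧
      HasPositiveCapacity (frontier (((↑) : ℂ → OnePoint ℂ) '' ball 0 r)) ∧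
      cuspG φ (((↑) : ℂ → OnePoint ℂ) '' ball 0 r) = frontier (((↑) : ℂ → OnePoint ℂ) '' ball 0 r) ∧
      ∀ z ∈ ((↑) : ℂ → OnePoint ℂ) '' ball 0 r,
        harmonicMeasure (((↑) : ℂ → OnePoint ℂ) '' ball 0 r)
          (cuspG φ (((↑) : ℂ → OnePoint ℂ) '' ball 0 r)) z = 1 := by
  set D : Set (OnePoint ℂ) := ((↑) : ℂ → OnePoint ℂ) '' ball 0 r with hD
  obtain ⟨x₀, hx₀, hφ⟩ := mem_nhdsGT_iff_exists_Ioo_subset.mp h
  have hx₀' : (0:ℝ) < x₀ := hx₀
  have hopen : IsOpen D := OnePoint.isOpenEmbedding_coe.isOpenMap _ isOpen_ball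
  have hfin : fin D = ball 0 r := by
    ext z
    constructor
    · rintro ⟨y, hy, hyz⟩
      rwa [OnePoint.coe_injective hyz] at hy
    · exact fun hz => ⟨z, hz, rfl⟩
  have hfr1 : ∀ z ∈ sphere (0 : ℂ) r, (z : OnePoint ℂ) ∈ frontier D := by
    intro z hz
    rw [hopen.frontier_eq]
    constructor
    · have h1 : z ∈ closure (ball (0:ℂ) r) := by
        rw [closure_ball _ hr.ne']
        exact sphere_subset_closedBall hz
      exact image_closure_subset_closure_image OnePoint.continuous_coe ⟨z, h1, rfl⟩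
    · rintro ⟨y, hy, hyz⟩
      rw [OnePoint.coe_injective hyz] at hy
      rw [mem_ball] at hy
      rw [mem_sphere] at hz
      linarith
  have hfr2 : ∀ p ∈ frontier D, ∃ z ∈ sphere (0:ℂ) r, p = (z : OnePoint ℂ) := by
    intro p hp
    rw [hopen.frontier_eq] at hp
    have h1 : closure D ⊆ ((↑) : ℂ → OnePoint ℂ) '' closedBall 0 r :=
      closure_minimal (image_mono ball_subset_closedBall)
        ((isCompact_closedBall (0:ℂ) r).image OnePoint.continuous_coe).isClosed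
    obtain ⟨z, hz, rfl⟩ := h1 hp.1
    refine ⟨z, ?_, rfl⟩
    rw [mem_closedBall] at hz
    rw [mem_sphere]
    refine le_antisymm hz ?_
    by_contra hcon
    push Not at hcon
    exact hp.2 ⟨z, mem_ball.mpr hcon, rfl⟩
  have hcusp : cuspG φ D = frontier D := by
    apply Subset.antisymm
    · rintro p ⟨ε, -, z, rfl, hz⟩
      exact hz.1
    · intro p hp
      obtain ⟨z, hz, rfl⟩ := hfr2 p hp
      refine ⟨x₀, hx₀', z, rfl, hp, fun x _ _ => ?_⟩
      obtain ⟨θ, hθ⟩ := disc_cusp hc (x₀ := x₀) (fun x hx => hφ hx) hr hrc hz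
      refine ⟨θ, (connectedComponentIn_subset _ _).trans ?_⟩
      rw [hfin]
      exact hθ
  refine ⟨hopen, ?_, capacity_circle hr hfr1, hcusp, ?_⟩
  · exact ((convex_ball (0:ℂ) r).isConnected ⟨0, mem_ball_self hr⟩).image _
      OnePoint.continuous_coe.continuousOn
  · intro z hz
    rw [hcusp]
    exact harmonicMeasure_frontier hopen (R := r) (Subset.refl _) hz

end Pool.Agent.Y257.CU
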