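import Pool.Agent.Y257.CU.Defs

/-! The assembly of superharmonic functions (adapted from `Pool/Agent/Helper311/CuspProof.lean`,
with a general region in place of the power cusp). -/

open Set Filter Topology Metric MeasureTheory
open scoped ENNReal OnePoint

namespace Pool.Agent.Y257.CU

open Pool.Agent.Helper311.Cusp

/-- Glueing: one component. -/
lemma comp_barrier {Φ : ℝ → ℝ} (hΦ : HasBarriers Φ) {D : Set (OnePoint ℂ)} (hD : IsOpen D)
    {ν : Measure ℂ} [IsFiniteMeasure ν] {F : Set ℂ} (hF : IsCompact F) (hν : ν Fᶜ = 0)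
    (hm : 0 < (ν univ).toReal) (hFD : Disjoint F (fin D)) {c : ℂ} (hcD : c ∉ fin D)
    {ρ : ℝ} (hρ : 0 < ρ) (hρ1 : ρ ≤ 1) (hFc : Disjoint (closedBall c ρ) F) {M' : ℝ}
    (hM1 : ∀ x ∉ F, ∀ y ∈ closedBall c ρ,
      0 ≤ pot ν x + M' - (ν univ).toReal * Real.log ‖x - y‖)
    (hM2 : ∀ x ∉ F, 0 ≤ pot ν x + M' - (ν univ).toReal * Real.log (3 * ρ / 4))
    {R₀ : ℝ} (hFR : F ⊆ ball 0 R₀) (hcR : closedBall c ρ ⊆ ball 0 R₀)
    {U : Set ℂ} (hUo : IsOpen U) (hUsub : U ⊆ fin D ∩ ball c ρ)
    (hUcl : IsOpen ((fin D ∩ ball c ρ) \ U))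
    {K' : Set ℂ} (hK'c : K' ⊆ ball c (ρ / 4))
    (hK' : ∀ z ∈ K', z ∈ closure U ∧ ∃ θ : ℝ, U ⊆ copyG Φ z θ)
    {z₁ : OnePoint ℂ} (hz₁c : ∀ ζ : ℂ, (ζ : OnePoint ℂ) = z₁ → ρ ≤ dist ζ c)
    {δ : ℝ} (hδ : 0 < δ) :
    ∃ u : OnePoint ℂ → ℝ≥0∞, Good D c ρ R₀ u ∧
      (∀ z ∈ K', ∃ r > 0, ∀ x ∈ U, dist x z < r → 1 ≤ u (x : OnePoint ℂ)) ∧
      u z₁ ≤ ENNReal.ofReal δ := by
  classical
  set m := (ν univ).toReal with hmdef
  have hR₀ : 0 < R₀ := by
    have := hcR (mem_closedBall_self hρ.le)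
    rw [mem_ball] at this
    exact lt_of_le_of_lt dist_nonneg this
  have hlog65 : 0 < Real.log (6 / 5) := Real.log_pos (by norm_num)
  set κ : ℝ := 1 / (m * Real.log (6 / 5)) with hκ
  have hκpos : 0 < κ := by positivity
  -- value at z₁
  obtain ⟨δ', hδ', hδ'1⟩ : ∃ δ' > 0, ∀ B, (B = κ * M' ∨ ∃ ζ : ℂ, (ζ : OnePoint ℂ) = z₁ ∧
      B = outer ν m M' κ c ζ) → δ' * B ≤ δ := by
    obtain ⟨B₀, hB₀⟩ : ∃ B₀ : ℝ, ∀ B, (B = κ * M' ∨ ∃ ζ : ℂ, (ζ : OnePoint ℂ) = z₁ ∧
      B = outer ν m M' κ c ζ) → B ≤ B₀ := by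
      by_cases hz : ∃ ζ : ℂ, (ζ : OnePoint ℂ) = z₁
      · obtain ⟨ζ, hζ⟩ := hz
        refine ⟨max (κ * M') (outer ν m M' κ c ζ), ?_⟩
        rintro B (rfl | ⟨ζ', hζ', rfl⟩)
        · exact le_max_left _ _
        · have : ζ' = ζ := OnePoint.coe_injective (hζ'.trans hζ.symm)
          rw [this]; exact le_max_right _ _
      · refine ⟨κ * M', ?_⟩
        rintro B (rfl | ⟨ζ', hζ', rfl⟩)
        · exact le_rfl
        · exact absurd ⟨ζ', hζ'⟩ hz
    refine ⟨δ / (|B₀| + 1), by positivity, ?_⟩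
    intro B hB
    have h1 := hB₀ B hB
    have h2 : B ≤ |B₀| + 1 := by
      have := le_abs_self B₀; linarith
    calc δ / (|B₀| + 1) * B ≤ δ / (|B₀| + 1) * (|B₀| + 1) :=
          mul_le_mul_of_nonneg_left h2 (by positivity)
      _ = δ := by field_simp
  have hdiam : ∀ z ∈ K', ∀ z' ∈ K', dist z z' ≤ 1 := by
    intro z hz z' hz'
    have h1 := mem_ball.mp (hK'c hz)
    have h2 := mem_ball.mp (hK'c hz')
    have := dist_triangle_right z z' c
    linarith
  obtain ⟨G, hGd, hG0, hG1, hG2⟩ := hΦ hK' hdiam (η := ρ / 8) (by positivity) hδ'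
  -- the functions
  set O : ℂ → ℝ := outer ν m M' (δ' * κ) c with hO
  set a : ℂ → ℝ := fun x => δ' * κ * (pot ν x + M' - m * Real.log (3 * ρ / 4)) with ha
  set I : ℂ → ℝ := fun x => (G x).re + a x with hI
  have hballF : ∀ x ∈ fin D, x ∉ F := fun x hx hxF => Set.disjoint_left.mp hFD hxF hx
  have hO0 : ∀ x ∉ F, 0 ≤ O x := by
    intro x hx
    have := hM1 x hx c (mem_closedBall_self hρ.le)
    simp only [hO, outer]
    positivity
  have ha0 : ∀ x ∉ F, 0 ≤ a x := by
    intro x hx
    have := hM2 x hx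
    simp only [ha]
    positivity
  have hI0 : ∀ x ∈ U, 0 ≤ I x := fun x hx =>
    add_nonneg (hG0 x hx) (ha0 x (hballF x (hUsub hx).1))
  -- comparison of O and a
  have hcomp : ∀ x, O x - a x = δ' * κ * m * (Real.log (3 * ρ / 4) - Real.log ‖x - c‖) := by
    intro x; simp only [hO, ha, outer]; ring
  have hOI_far : ∀ x ∈ U, 3 * ρ / 4 ≤ dist x c → O x ≤ I x := by
    intro x hx hxc
    have h1 := hcomp x
    have h2 : Real.log (3 * ρ / 4) ≤ Real.log ‖x - c‖ := by
      rw [← dist_eq_norm]; exact Real.log_le_log (by positivity) hxc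
    have h3 := hG0 x hx
    have h4 : 0 ≤ δ' * κ * m := by positivity
    have h5 : δ' * κ * m * (Real.log (3 * ρ / 4) - Real.log ‖x - c‖) ≤ 0 :=
      mul_nonpos_of_nonneg_of_nonpos h4 (by linarith)
    simp only [hI]
    linarith
  have hIO_near : ∀ x ∈ U, 3 * ρ / 8 ≤ dist x c → dist x c ≤ 5 * ρ / 8 → I x ≤ O x := by
    intro x hx hx1 hx2
    have h1 := hcomp x
    have hxpos : 0 < dist x c := lt_of_lt_of_le (by positivity) hx1
    have h2 : Real.log (6 / 5) ≤ Real.log (3 * ρ / 4) - Real.log ‖x - c‖ := by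
      rw [← dist_eq_norm, ← Real.log_div (by positivity) hxpos.ne']
      apply Real.log_le_log (by norm_num)
      rw [le_div_iff₀ hxpos]
      linarith
    have h3 : (G x).re ≤ δ' := by
      apply hG2 x hx
      intro z hz
      have h4 := mem_ball.mp (hK'c hz)
      have h5 := dist_triangle x z c
      linarith
    have h4 : δ' = δ' * κ * m * Real.log (6 / 5) := by
      rw [hκ]; field_simp
    have h5 : δ' * κ * m * Real.log (6 / 5)
        ≤ δ' * κ * m * (Real.log (3 * ρ / 4) - Real.log ‖x - c‖) :=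
      mul_le_mul_of_nonneg_left h2 (by positivity)
    simp only [hI]
    linarith
  -- continuity
  have hOc : ∀ x ∈ fin D, ContinuousAt O x := by
    intro x hx
    apply outer_continuousAt hF hν (hballF x hx)
    rintro rfl; exact hcD hx
  have hIc : ∀ x ∈ U, ContinuousAt I x := by
    intro x hx
    apply ContinuousAt.add
    · exact Complex.continuous_re.continuousAt.comp
        ((hGd.continuousOn).continuousAt (hUo.mem_nhds hx))
    · apply ContinuousAt.mul continuousAt_const
      exact ((continuousAt_pot hF hν (hballF x (hUsub hx).1)).add continuousAt_const).sub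
        continuousAt_const
  -- means
  have hOm : ∀ x, ∀ r, 0 < r → closedBall x r ⊆ fin D →
      CircleIntegrable O x r ∧ Real.circleAverage O x r = O x := by
    intro x r hr hsub
    apply outer_mean hF hν hr
    · rw [Set.disjoint_left]
      intro y hy; exact hballF y (hsub hy)
    · by_contra hcon
      push Not at hcon
      exact hcD (hsub (by rw [mem_closedBall, dist_comm, dist_eq_norm]; exact hcon))
  have hIm : ∀ x, ∀ r, 0 < r → closedBall x r ⊆ U →
      CircleIntegrable I x r ∧ Real.circleAverage I x r = I x := by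
    intro x r hr hsub
    have hdis : Disjoint (closedBall x r) F := by
      rw [Set.disjoint_left]
      intro y hy; exact hballF y (hUsub (hsub hy)).1
    have h1 : CircleIntegrable (pot ν) x r := circleIntegrable_pot hF hν (by
      rw [abs_of_pos hr]; exact hdis.mono_left sphere_subset_closedBall)
    have h2 : CircleIntegrable a x r := by
      apply ContinuousOn.circleIntegrable hr.le
      intro y hy
      have hy' := hballF y (hUsub (hsub (sphere_subset_closedBall hy))).1
      apply ContinuousAt.continuousWithinAt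
      apply ContinuousAt.mul continuousAt_const
      exact ((continuousAt_pot hF hν hy').add continuousAt_const).sub
        continuousAt_const
    have h3 : CircleIntegrable G x r := by
      apply ContinuousOn.circleIntegrable hr.le
      exact hGd.continuousOn.mono (sphere_subset_closedBall.trans hsub)
    have h4 : CircleIntegrable (fun y => (G y).re) x r := by
      apply ContinuousOn.circleIntegrable hr.le
      exact Complex.continuous_re.comp_continuousOn
        (hGd.continuousOn.mono (sphere_subset_closedBall.trans hsub))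
    refine ⟨h4.add h2, ?_⟩
    have h5 : Real.circleAverage (fun y => (G y).re) x r = (G x).re := by
      have h6 := Complex.reCLM.circleAverage_comp_comm h3
      have h7 : Real.circleAverage G x r = G x := by
        apply DiffContOnCl.circleAverage
        rw [abs_of_pos hr]
        apply DifferentiableOn.diffContOnCl
        rw [closure_ball x hr.ne']
        exact hGd.mono hsub
      rw [h7] at h6
      exact h6
    have h6 : Real.circleAverage a x r = a x := by
      have e : a = fun y => (δ' * κ) • (pot ν y + (M' - m * Real.log (3 * ρ / 4))) := by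
        funext y; simp only [ha, smul_eq_mul]; ring
      rw [e, Real.circleAverage_fun_smul, Real.circleAverage_fun_add h1
        (circleIntegrable_const _ x r), Real.circleAverage_const,
        circleAverage_pot_eq hF hν hr hdis]
    rw [hI, Real.circleAverage_fun_add h4 h2, h5, h6]
  -- the glued function
  let w : ℂ → ℝ≥0∞ := fun x =>
    if x ∈ U ∧ dist x c < ρ / 2 then ENNReal.ofReal (I x)
    else if x ∈ U then ENNReal.ofReal (min (I x) (O x)) else ENNReal.ofReal (O x)
  let u : OnePoint ℂ → ℝ≥0∞ := fun p => p.elim (ENNReal.ofReal (δ' * κ * M')) w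
  have hu : ∀ x : ℂ, u (x : OnePoint ℂ) = w x := fun x => rfl
  -- local description
  have hlocal : ∀ x ∈ fin D, ∃ e > 0, ball x e ⊆ fin D ∧
      ((∀ y ∈ ball x e, w y = ENNReal.ofReal (O y)) ∨
       (ball x e ⊆ U ∧ ∀ y ∈ ball x e, w y = ENNReal.ofReal (I y)) ∨
       (ball x e ⊆ U ∧ ∀ y ∈ ball x e, w y = ENNReal.ofReal (min (I y) (O y)))) := by
    intro x hx
    obtain ⟨e₀, he₀, hsub₀⟩ := Metric.isOpen_iff.mp (isOpen_fin hD) x hx
    -- far region: dist x c > 3ρ/4
    have hfar : ∀ y, 3 * ρ / 4 ≤ dist y c → w y = ENNReal.ofReal (O y) := by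
      intro y hy
      simp only [w]
      rw [if_neg (by rintro ⟨-, h⟩; linarith)]
      by_cases hyU : y ∈ U
      · rw [if_pos hyU, min_eq_right (hOI_far y hyU hy)]
      · rw [if_neg hyU]
    by_cases hxc : 3 * ρ / 4 < dist x c
    · refine ⟨min e₀ (dist x c - 3 * ρ / 4), lt_min he₀ (by linarith), ?_, Or.inl ?_⟩
      · exact (ball_subset_ball (min_le_left _ _)).trans hsub₀
      · intro y hy
        apply hfar
        have h1 : dist y x < dist x c - 3 * ρ / 4 := lt_of_lt_of_le (mem_ball.mp hy) (min_le_right _ _)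
        have h2 := dist_triangle_left x c y
        linarith
    · push Not at hxc
      have hxV : x ∈ fin D ∩ ball c ρ := ⟨hx, by rw [mem_ball]; linarith⟩
      by_cases hxU : x ∈ U
      · obtain ⟨e₁, he₁, hsub₁⟩ := Metric.isOpen_iff.mp hUo x hxU
        by_cases hx2 : dist x c < 5 * ρ / 8
        · refine ⟨min (min e₀ e₁) (5 * ρ / 8 - dist x c), ?_, ?_, Or.inr (Or.inl ⟨?_, ?_⟩)⟩
          · exact lt_min (lt_min he₀ he₁) (by linarith)
          · exact (ball_subset_ball ((min_le_left _ _).trans (min_le_left _ _))).trans hsub₀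
          · exact (ball_subset_ball ((min_le_left _ _).trans (min_le_right _ _))).trans hsub₁
          · intro y hy
            have hyU : y ∈ U :=
              hsub₁ (ball_subset_ball ((min_le_left _ _).trans (min_le_right _ _)) hy)
            have h1 : dist y x < 5 * ρ / 8 - dist x c :=
              lt_of_lt_of_le (mem_ball.mp hy) (min_le_right _ _)
            have h2 := dist_triangle y x c
            simp only [w]
            by_cases h3 : dist y c < ρ / 2
            · rw [if_pos ⟨hyU, h3⟩]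
            · rw [if_neg (by tauto), if_pos hyU, min_eq_left]
              apply hIO_near y hyU
              · linarith
              · linarith
        · refine ⟨min (min e₀ e₁) (ρ / 8), ?_, ?_, Or.inr (Or.inr ⟨?_, ?_⟩)⟩
          · exact lt_min (lt_min he₀ he₁) (by linarith)
          · exact (ball_subset_ball ((min_le_left _ _).trans (min_le_left _ _))).trans hsub₀
          · exact (ball_subset_ball ((min_le_left _ _).trans (min_le_right _ _))).trans hsub₁
          · intro y hy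
            have hyU : y ∈ U :=
              hsub₁ (ball_subset_ball ((min_le_left _ _).trans (min_le_right _ _)) hy)
            have h1 : dist y x < ρ / 8 := lt_of_lt_of_le (mem_ball.mp hy) (min_le_right _ _)
            have h2 := dist_triangle_left x c y
            have h3 : ¬ (dist y c < ρ / 2) := by linarith
            simp only [w]
            rw [if_neg (by tauto), if_pos hyU]
      · obtain ⟨e₁, he₁, hsub₁⟩ := Metric.isOpen_iff.mp hUcl x ⟨hxV, hxU⟩
        refine ⟨min e₀ e₁, lt_min he₀ he₁, ?_, Or.inl ?_⟩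
        · exact (ball_subset_ball (min_le_left _ _)).trans hsub₀
        · intro y hy
          have hyU : y ∉ U := (hsub₁ (ball_subset_ball (min_le_right _ _) hy)).2
          simp only [w]
          rw [if_neg (by tauto), if_neg hyU]
  have hw_out : ∀ y, y ∉ U → w y = ENNReal.ofReal (O y) := by
    intro y hy
    simp only [w]
    rw [if_neg (by tauto), if_neg hy]
  have hUR : ∀ y, y ∈ U → ‖y‖ < R₀ := by
    intro y hy
    have := hcR (ball_subset_closedBall (hUsub hy).2)
    rwa [mem_ball, dist_zero_right] at this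
  refine ⟨u, ⟨?_, ?_, ?_, ?_⟩, ?_, ?_⟩
  · -- lsc
    intro p hp
    apply LowerSemicontinuousAt.lowerSemicontinuousWithinAt
    induction p using OnePoint.rec with
    | infty =>
      apply ContinuousAt.lowerSemicontinuousAt
      rw [OnePoint.continuousAt_infty', Filter.coclosedCompact_eq_cocompact]
      have h1 : Tendsto (fun x => ENNReal.ofReal (O x)) (cocompact ℂ)
          (𝓝 (ENNReal.ofReal (δ' * κ * M'))) := by
        apply ENNReal.tendsto_ofReal
        have h2 := (((pot_tendsto hF hν c).add_const M').const_mul (δ' * κ))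
        rw [zero_add] at h2
        refine h2.congr ?_
        intro x
        simp only [hO, outer]; ring
      refine h1.congr' ?_
      filter_upwards [tendsto_norm_cocompact_atTop.eventually_ge_atTop R₀] with x hx
      have hxU : x ∉ U := fun h => by
        have := hUR x h; linarith
      exact (hw_out x hxU).symm
    | coe x =>
      obtain ⟨e, he, hsub, h⟩ := hlocal x hp
      rcases h with h | ⟨hU', h⟩ | ⟨hU', h⟩
      · exact lsc_of_near (Filter.eventually_of_mem (ball_mem_nhds x he) h) (hOc x hp)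
      · exact lsc_of_near (Filter.eventually_of_mem (ball_mem_nhds x he) h)
          (hIc x (hU' (mem_ball_self he)))
      · exact lsc_of_near (g := fun y => min (I y) (O y))
          (Filter.eventually_of_mem (ball_mem_nhds x he) h)
          ((hIc x (hU' (mem_ball_self he))).min (hOc x hp))
  · -- local means
    intro x hx
    obtain ⟨e, he, hsub, h⟩ := hlocal x hx
    refine ⟨e, he, ?_⟩
    intro r hr0 hr
    have hcb : closedBall x r ⊆ ball x e := closedBall_subset_ball hr
    have hsp : ∀ y ∈ sphere x r, y ∈ ball x e := fun y hy => hcb (sphere_subset_closedBall hy)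
    have hOx := hOm x r hr0 (hcb.trans hsub)
    rw [hu]
    rcases h with h | ⟨hU', h⟩ | ⟨hU', h⟩
    · rw [h x (mem_ball_self he)]
      exact circMean_le_of_real hr0.le (fun y hy => (h y (hsp y hy)).le) hOx.1
        (fun y hy => hO0 y (hballF y (hsub (hsp y hy)))) hOx.2.le
    · rw [h x (mem_ball_self he)]
      have hIx := hIm x r hr0 (hcb.trans hU')
      exact circMean_le_of_real hr0.le (fun y hy => (h y (hsp y hy)).le) hIx.1
        (fun y hy => hI0 y (hU' (hsp y hy))) hIx.2.le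
    · rw [h x (mem_ball_self he)]
      have hIx := hIm x r hr0 (hcb.trans hU')
      rcases min_choice (I x) (O x) with hmin | hmin
      · rw [hmin]
        exact circMean_le_of_real hr0.le (fun y hy => by
          rw [hu, h y (hsp y hy)]; exact ENNReal.ofReal_le_ofReal (min_le_left _ _)) hIx.1
          (fun y hy => hI0 y (hU' (hsp y hy))) hIx.2.le
      · rw [hmin]
        exact circMean_le_of_real hr0.le (fun y hy => by
          rw [hu, h y (hsp y hy)]; exact ENNReal.ofReal_le_ofReal (min_le_right _ _)) hOx.1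
          (fun y hy => hO0 y (hballF y (hsub (hsp y hy)))) hOx.2.le
  · -- far means
    intro z d hd h r hr0 hr
    have hnot : ∀ y ∈ ball z d, y ∉ U := by
      intro y hy hyU
      have h1 := mem_ball.mp (hUsub hyU).2
      have h2 := (h y hy).2
      linarith
    have hcb : closedBall z r ⊆ ball z d := closedBall_subset_ball hr
    have hsp : ∀ y ∈ sphere z r, y ∈ ball z d := fun y hy => hcb (sphere_subset_closedBall hy)
    have hOx := hOm z r hr0 (fun y hy => (h y (hcb hy)).1)
    rw [hu, hw_out z (hnot z (mem_ball_self hd))]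
    exact circMean_le_of_real hr0.le (fun y hy => (hw_out y (hnot y (hsp y hy))).le) hOx.1
      (fun y hy => hO0 y (hballF y (h y (hsp y hy)).1)) hOx.2.le
  · -- infinity
    intro _ r hr
    have hr0 : 0 < r := hR₀.trans hr
    have hFr : F ⊆ ball 0 r := hFR.trans (ball_subset_ball hr.le)
    have hcr : c ∈ ball (0:ℂ) r := ball_subset_ball hr.le (hcR (mem_closedBall_self hρ.le))
    have hOx := outer_mean_infty (ν := ν) (M' := M') (A := δ' * κ) hF hν hr0 hFr hcr
    have hnot : ∀ y ∈ sphere (0:ℂ) r, y ∉ U := by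
      intro y hy hyU
      have h1 := hUR y hyU
      rw [mem_sphere, dist_zero_right] at hy
      linarith
    have hnotF : ∀ y ∈ sphere (0:ℂ) r, y ∉ F := by
      intro y hy hyF
      have h1 := hFr hyF
      rw [mem_sphere] at hy; rw [mem_ball] at h1
      linarith
    exact circMean_le_of_real hr0.le (fun y hy => (hw_out y (hnot y hy)).le) hOx.1
      (fun y hy => hO0 y (hnotF y hy)) hOx.2.le
  · -- barrier
    intro z hz
    obtain ⟨r, hr, h⟩ := hG1 z hz
    refine ⟨min r (ρ / 4), lt_min hr (by positivity), ?_⟩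
    intro x hx hxz
    rw [lt_min_iff] at hxz
    have h1 := mem_ball.mp (hK'c hz)
    have h2 := dist_triangle x z c
    have h3 : dist x c < ρ / 2 := by linarith
    rw [hu]
    simp only [w]
    rw [if_pos ⟨hx, h3⟩]
    rw [← ENNReal.ofReal_one]
    apply ENNReal.ofReal_le_ofReal
    have h4 := h x hx hxz.1
    have h5 := ha0 x (hballF x (hUsub hx).1)
    simp only [hI]; linarith
  · -- value
    induction z₁ using OnePoint.rec with
    | infty =>
      apply ENNReal.ofReal_le_ofReal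
      have := hδ'1 (κ * M') (Or.inl rfl)
      linarith
    | coe ζ =>
      have h1 := hz₁c ζ rfl
      have h2 : ζ ∉ U := by
        intro h
        have h3 := mem_ball.mp (hUsub h).2
        linarith
      rw [hu, hw_out ζ h2]
      apply ENNReal.ofReal_le_ofReal
      have := hδ'1 (outer ν m M' κ c ζ) (Or.inr ⟨ζ, rfl, rfl⟩)
      simp only [hO, outer] at this ⊢
      linarith

/-! ### The area-potential used for all but finitely many components -/

/-! ### Assembling the local superharmonic functions -/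

lemma Kset_notMem {Φ : ℝ → ℝ} {ε : ℝ} {D : Set (OnePoint ℂ)} (hD : IsOpen D) {z : ℂ}
    (hz : z ∈ KsetG Φ D ε) : z ∉ fin D := by
  intro h
  have h1 := hz.1
  rw [hD.frontier_eq] at h1
  exact h1.2 h

lemma mem_frontier_cc {Φ : ℝ → ℝ} {ε : ℝ} {D : Set (OnePoint ℂ)} (hD : IsOpen D) {z : ℂ}
    (hz : z ∈ KsetG Φ D ε) {V : Set ℂ} (hV : V ⊆ fin D) {x : ℂ}
    (hcl : z ∈ closure (connectedComponentIn V x)) : z ∈ frontier (connectedComponentIn V x) := by
  refine ⟨hcl, ?_⟩
  intro h
  exact Kset_notMem hD hz (hV (connectedComponentIn_subset _ _ (interior_subset h)))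

lemma Kset_copy {Φ : ℝ → ℝ} {ε : ℝ} {D : Set (OnePoint ℂ)} (hD : IsOpen D) {z : ℂ}
    (hz : z ∈ KsetG Φ D ε) {c : ℂ} {ρ : ℝ} (hρ : 0 < ρ) (hρε : 2 * ρ ≤ ε)
    (hzc : z ∈ ball c (ρ / 4)) {x : ℂ} (hx : x ∈ fin D ∩ ball c ρ)
    (hcl : z ∈ closure (connectedComponentIn (fin D ∩ ball c ρ) x)) :
    ∃ θ : ℝ, connectedComponentIn (fin D ∩ ball c ρ) x ⊆ copyG Φ z θ := by
  have hsub : fin D ∩ ball c ρ ⊆ fin D ∩ ball z ε := by
    apply inter_subset_inter_right
    intro y hy
    rw [mem_ball] at hy hzc ⊢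
    have := dist_triangle_right y z c
    linarith
  have hmono := connectedComponentIn_mono x hsub
  obtain ⟨θ, hθ⟩ := hz.2 x (hsub hx) (mem_frontier_cc hD hz inter_subset_left
    (closure_mono hmono hcl))
  exact ⟨θ, hmono.trans hθ⟩

lemma Kset_mono {Φ : ℝ → ℝ} {ε ε' : ℝ} {D : Set (OnePoint ℂ)} (hD : IsOpen D) (h : ε' ≤ ε) :
    KsetG Φ D ε ⊆ KsetG Φ D ε' := by
  intro z hz
  refine ⟨hz.1, ?_⟩
  intro x hx hfr
  have hsub : fin D ∩ ball z ε' ⊆ fin D ∩ ball z ε :=
    inter_subset_inter_right _ (ball_subset_ball h)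
  have hmono := connectedComponentIn_mono x hsub
  obtain ⟨θ, hθ⟩ := hz.2 x (hsub hx) (mem_frontier_cc hD hz inter_subset_left
    (closure_mono hmono hfr.1))
  exact ⟨θ, hmono.trans hθ⟩

lemma ball_case {Φ : ℝ → ℝ} (hΦ : HasBarriers Φ) {D : Set (OnePoint ℂ)} (hD : IsOpen D)
    {ν : Measure ℂ} [IsFiniteMeasure ν] {F : Set ℂ} (hF : IsCompact F) (hν : ν Fᶜ = 0)
    (hm : 0 < (ν univ).toReal) (hFD : Disjoint F (fin D)) {c : ℂ} (hcD : c ∉ fin D)
    {ρ : ℝ} (hρ : 0 < ρ) (hρ1 : ρ ≤ 1) (hFc : Disjoint (closedBall c ρ) F) {M' : ℝ}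
    (hM1 : ∀ x ∉ F, ∀ y ∈ closedBall c ρ,
      0 ≤ pot ν x + M' - (ν univ).toReal * Real.log ‖x - y‖)
    (hM2 : ∀ x ∉ F, 0 ≤ pot ν x + M' - (ν univ).toReal * Real.log (3 * ρ / 4))
    {R₀ : ℝ} (hFR : F ⊆ ball 0 R₀) (hcR : closedBall c ρ ⊆ ball 0 R₀)
    {ε : ℝ} (hρε : 2 * ρ ≤ ε)
    {z₁ : OnePoint ℂ} (hz₁c : ∀ ζ : ℂ, (ζ : OnePoint ℂ) = z₁ → 2 * ρ ≤ dist ζ c)
    {δ : ℝ} (hδ : 0 < δ) :
    ∃ u : OnePoint ℂ → ℝ≥0∞, Good D c ρ R₀ u ∧
      (∀ z ∈ KsetG Φ D ε, z ∈ ball c (ρ / 4) → 1 ≤ liminf u (𝓝[D] (z : OnePoint ℂ))) ∧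
      u z₁ ≤ ENNReal.ofReal δ := by
  classical
  have hR₀ : 0 < R₀ := by
    have := hcR (mem_closedBall_self hρ.le)
    rw [mem_ball] at this
    exact lt_of_le_of_lt dist_nonneg this
  set V : Set ℂ := fin D ∩ ball c ρ with hV
  have hVo : IsOpen V := (isOpen_fin hD).inter isOpen_ball
  by_cases hVe : V = ∅
  · -- no points of D near c
    refine ⟨fun _ => 0, Good.zero, ?_, by simp⟩
    intro z hz hzc
    exfalso
    have h1 : z ∈ closure (fin D) := by
      have h2 := hz.1.1
      rw [mem_closure_iff_nhdsWithin_neBot] at h2 ⊢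
      rw [OnePoint.nhdsWithin_coe, map_neBot_iff] at h2
      exact h2
    rw [Metric.mem_closure_iff] at h1
    obtain ⟨b, hb, hzb⟩ := h1 (ρ / 4) (by positivity)
    have : b ∈ V := ⟨hb, by
      rw [mem_ball] at hzc ⊢
      have := dist_triangle_left b c z
      linarith⟩
    rw [hVe] at this
    exact this
  · have hVne : V.Nonempty := nonempty_iff_ne_empty.mpr hVe
    -- the components
    let 𝒰 : Set (Set ℂ) := (fun x => connectedComponentIn V x) '' V
    have h𝒰o : ∀ U ∈ 𝒰, IsOpen U := by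
      rintro U ⟨x, hx, rfl⟩
      exact hVo.connectedComponentIn
    have h𝒰sub : ∀ U ∈ 𝒰, U ⊆ V := by
      rintro U ⟨x, hx, rfl⟩
      exact connectedComponentIn_subset _ _
    have h𝒰ne : ∀ U ∈ 𝒰, U.Nonempty := by
      rintro U ⟨x, hx, rfl⟩
      exact ⟨x, mem_connectedComponentIn hx⟩
    have h𝒰eq : ∀ U ∈ 𝒰, ∀ y ∈ U, U = connectedComponentIn V y := by
      rintro U ⟨x, hx, rfl⟩ y hy
      exact connectedComponentIn_eq hy
    have h𝒰c : 𝒰.Countable := by
      apply Set.PairwiseDisjoint.countable_of_isOpen (s := id) _ h𝒰o h𝒰ne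
      intro U hU U' hU' hne
      rw [Function.onFun, Set.disjoint_left]
      intro y hy hy'
      exact hne ((h𝒰eq U hU y hy).trans (h𝒰eq U' hU' y hy').symm)
    have h𝒰nonempty : 𝒰.Nonempty := hVne.image _
    obtain ⟨f, hf⟩ := h𝒰c.exists_eq_range h𝒰nonempty
    have hf𝒰 : ∀ j, f j ∈ 𝒰 := fun j => by rw [hf]; exact mem_range_self j
    -- tail sets
    let T : ℕ → Set ℂ := fun J => V \ ⋃ j ∈ Finset.range J, f j
    have hTsub : ∀ J, T J ⊆ V := fun J => sdiff_subset
    have hTo : ∀ J, IsOpen (T J) := by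
      intro J
      rw [isOpen_iff_mem_nhds]
      intro x hx
      have h1 : connectedComponentIn V x ∈ 𝓝 x :=
        hVo.connectedComponentIn.mem_nhds (mem_connectedComponentIn hx.1)
      apply mem_of_superset h1
      intro y hy
      refine ⟨connectedComponentIn_subset _ _ hy, ?_⟩
      intro hy2
      rw [mem_iUnion₂] at hy2
      obtain ⟨j, hj, hyj⟩ := hy2
      apply hx.2
      rw [mem_iUnion₂]
      refine ⟨j, hj, ?_⟩
      rw [h𝒰eq (f j) (hf𝒰 j) y hyj, ← connectedComponentIn_eq hy]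
      exact mem_connectedComponentIn hx.1
    have hTcl : ∀ J, IsOpen (V \ T J) := by
      intro J
      have : V \ T J = ⋃ j ∈ Finset.range J, f j := by
        simp only [T]
        rw [sdiff_sdiff_right_self]
        apply inter_eq_right.mpr
        intro y hy
        rw [mem_iUnion₂] at hy
        obtain ⟨j, hj, hyj⟩ := hy
        exact h𝒰sub _ (hf𝒰 j) hyj
      rw [this]
      exact isOpen_biUnion (fun j _ => h𝒰o _ (hf𝒰 j))
    have hTanti : Antitone T := by
      intro J J' h
      apply sdiff_subset_sdiff_right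
      apply biUnion_subset_biUnion_left
      intro j hj
      exact Finset.mem_coe.mpr (Finset.range_mono h hj)
    have hTinter : ⋂ J, T J = ∅ := by
      rw [eq_empty_iff_forall_notMem]
      intro x hx
      rw [mem_iInter] at hx
      have hxV := (hx 0).1
      have h1 : connectedComponentIn V x ∈ 𝒰 := ⟨x, hxV, rfl⟩
      rw [hf] at h1
      obtain ⟨j, hj⟩ := h1
      apply (hx (j + 1)).2
      rw [mem_iUnion₂]
      exact ⟨j, Finset.mem_range.mpr (Nat.lt_succ_self j), by
        rw [hj]; exact mem_connectedComponentIn hxV⟩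
    have hVfin : volume V ≠ ⊤ :=
      ((measure_mono inter_subset_right).trans_lt measure_ball_lt_top).ne
    have hTlim : Tendsto (fun J => volume (T J)) atTop (𝓝 0) := by
      have h1 := tendsto_measure_iInter_atTop (μ := (volume : Measure ℂ)) (s := T)
        (fun J => (hTo J).measurableSet.nullMeasurableSet) hTanti
        ⟨0, ((measure_mono (hTsub 0)).trans_lt hVfin.lt_top).ne⟩
      rw [hTinter, measure_empty] at h1
      exact h1
    obtain ⟨B, hB, htail⟩ := tail_barrier hD hF hν hm hFD hρ hM1 hFR hcR hz₁c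
    have hBlim : Tendsto (fun J => B * volume (T J)) atTop (𝓝 0) := by
      have := ENNReal.Tendsto.const_mul hTlim (Or.inr hB)
      rwa [mul_zero] at this
    have hδ2 : (0:ℝ≥0∞) < ENNReal.ofReal (δ / 2) := ENNReal.ofReal_pos.mpr (by positivity)
    obtain ⟨J, hJ⟩ := (hBlim.eventually (ge_mem_nhds hδ2)).exists
    obtain ⟨Ψ, hΨgood, hΨ1, hΨz⟩ := htail (T J) (hTo J) (hTsub J) (hTcl J)
    -- finitely many components
    have hfinite : ∀ N : ℕ, ∀ η : ℝ, 0 < η → ∃ u : OnePoint ℂ → ℝ≥0∞, Good D c ρ R₀ u ∧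
        (∀ j < N, ∀ z ∈ KsetG Φ D ε, z ∈ ball c (ρ / 4) → z ∈ closure (f j) →
          ∃ r > 0, ∀ x ∈ f j, dist x z < r → 1 ≤ u (x : OnePoint ℂ)) ∧
        u z₁ ≤ ENNReal.ofReal η := by
      intro N
      induction N with
      | zero =>
        intro η _
        exact ⟨fun _ => 0, Good.zero, fun j hj => absurd hj (Nat.not_lt_zero j), by simp⟩
      | succ N ih =>
        intro η hη
        obtain ⟨u, hu1, hu2, hu3⟩ := ih (η / 2) (by positivity)
        have hcompl : IsOpen (V \ f N) := by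
          have h0 : T 0 = V := by simp [T]
          rw [isOpen_iff_mem_nhds]
          intro x hx
          have h1 : connectedComponentIn V x ∈ 𝓝 x :=
            hVo.connectedComponentIn.mem_nhds (mem_connectedComponentIn hx.1)
          apply mem_of_superset h1
          intro y hy
          refine ⟨connectedComponentIn_subset _ _ hy, ?_⟩
          intro hyj
          apply hx.2
          rw [h𝒰eq (f N) (hf𝒰 N) y hyj, ← connectedComponentIn_eq hy]
          exact mem_connectedComponentIn hx.1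
        obtain ⟨w, hw1, hw2, hw3⟩ := comp_barrier hΦ hD hF hν hm hFD hcD hρ hρ1 hFc hM1 hM2
          hFR hcR (h𝒰o _ (hf𝒰 N)) (h𝒰sub _ (hf𝒰 N)) hcompl
          (K' := KsetG Φ D ε ∩ ball c (ρ / 4) ∩ closure (f N))
          (fun z hz => hz.1.2)
          (by
            intro z hz
            refine ⟨hz.2, ?_⟩
            obtain ⟨x, hx, hxe⟩ := hf𝒰 N
            have h1 := hz.2
            rw [← hxe] at h1 ⊢
            exact Kset_copy hD hz.1.1 hρ hρε hz.1.2 hx h1)
          (z₁ := z₁) (fun ζ hζ => by have := hz₁c ζ hζ; linarith)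
          (δ := η / 2) (by positivity)
        refine ⟨fun p => u p + w p, hu1.add hD hR₀.le hw1, ?_, ?_⟩
        · intro j hj z hz hzc hzcl
          rcases Nat.lt_succ_iff_lt_or_eq.mp hj with hj' | hj'
          · obtain ⟨r, hr, h⟩ := hu2 j hj' z hz hzc hzcl
            exact ⟨r, hr, fun x hx hxz => le_add_right (h x hx hxz)⟩
          · subst hj'
            obtain ⟨r, hr, h⟩ := hw2 z ⟨⟨hz, hzc⟩, hzcl⟩
            exact ⟨r, hr, fun x hx hxz => le_add_left (h x hx hxz)⟩
        · calc u z₁ + w z₁ ≤ ENNReal.ofReal (η / 2) + ENNReal.ofReal (η / 2) := add_le_add hu3 hw3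
            _ = ENNReal.ofReal η := by
              rw [← ENNReal.ofReal_add (by positivity) (by positivity)]; congr 1; ring
    obtain ⟨u, hu1, hu2, hu3⟩ := hfinite J (δ / 2) (by positivity)
    refine ⟨fun p => u p + Ψ p, hu1.add hD hR₀.le hΨgood, ?_, ?_⟩
    · intro z hz hzc
      apply le_liminf_of_le (by isBoundedDefault)
      rw [OnePoint.nhdsWithin_coe, eventually_map]
      have h1 : ∀ᶠ x in 𝓝 z, ∀ j ∈ Finset.range J, x ∈ f j → 1 ≤ u (x : OnePoint ℂ) := by
        rw [Filter.eventually_all_finset]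
        intro j hj
        by_cases hcl : z ∈ closure (f j)
        · obtain ⟨r, hr, h⟩ := hu2 j (Finset.mem_range.mp hj) z hz hzc hcl
          filter_upwards [ball_mem_nhds z hr] with x hx hxf
          exact h x hxf (mem_ball.mp hx)
        · filter_upwards [isClosed_closure.isOpen_compl.mem_nhds hcl] with x hx hxf
          exact absurd (subset_closure hxf) hx
      have h2 : ∀ᶠ x in 𝓝 z, dist x c < ρ / 4 := isOpen_ball.mem_nhds hzc
      have h3 : ∀ᶠ x in 𝓝[((↑) : ℂ → OnePoint ℂ) ⁻¹' D] z, x ∈ fin D := self_mem_nhdsWithin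
      filter_upwards [nhdsWithin_le_nhds h1, nhdsWithin_le_nhds h2, h3] with x hx1 hx2 hx3
      have hxV : x ∈ V := ⟨hx3, by rw [mem_ball]; linarith⟩
      by_cases hxT : x ∈ T J
      · exact le_add_left (hΨ1 x hxT hx2)
      · have : x ∈ ⋃ j ∈ Finset.range J, f j := by
          by_contra hcon
          exact hxT ⟨hxV, hcon⟩
        rw [mem_iUnion₂] at this
        obtain ⟨j, hj, hxj⟩ := this
        exact le_add_right (hx1 j hj hxj)
    · calc u z₁ + Ψ z₁ ≤ ENNReal.ofReal (δ / 2) + ENNReal.ofReal (δ / 2) :=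
            add_le_add hu3 (hΨz.trans hJ)
        _ = ENNReal.ofReal δ := by
          rw [← ENNReal.ofReal_add (by positivity) (by positivity)]; congr 1; ring

lemma exists_gap {D : Set (OnePoint ℂ)} (hD : IsOpen D) {z₁ : OnePoint ℂ} (hz₁ : z₁ ∈ D) :
    ∃ d > 0, ∀ ζ : ℂ, (ζ : OnePoint ℂ) = z₁ → ∀ c ∉ fin D, d ≤ dist ζ c := by
  induction z₁ using OnePoint.rec with
  | infty => exact ⟨1, one_pos, fun ζ hζ => absurd hζ (OnePoint.coe_ne_infty ζ)⟩
  | coe ζ =>
    obtain ⟨d, hd, h⟩ := sphere_in hD hz₁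
    refine ⟨d, hd, ?_⟩
    intro ζ' hζ' c hc
    have h1 : ζ' = ζ := OnePoint.coe_injective hζ'
    subst h1
    by_contra hcon
    push Not at hcon
    exact hc (h c (by rw [mem_ball, dist_comm]; exact hcon))

lemma exists_R_infty {D : Set (OnePoint ℂ)} (hD : IsOpen D) (h : (∞ : OnePoint ℂ) ∈ D) :
    ∃ R > 0, ∀ x : ℂ, R ≤ ‖x‖ → x ∈ fin D := by
  have h1 : D ∈ 𝓝 (∞ : OnePoint ℂ) := hD.mem_nhds h
  rw [OnePoint.nhds_infty_eq, Filter.mem_sup, Filter.mem_map,
    Filter.coclosedCompact_eq_cocompact] at h1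
  have h2 : ∀ᶠ x in cocompact ℂ, x ∈ fin D := h1.1
  rw [← Metric.cobounded_eq_cocompact, ← comap_norm_atTop, eventually_comap] at h2
  obtain ⟨R, hR⟩ := h2.exists_forall_of_atTop
  exact ⟨max R 1, lt_of_lt_of_le one_pos (le_max_right _ _),
    fun x hx => hR ‖x‖ ((le_max_left _ _).trans hx) x rfl⟩

theorem cusp_null {Φ : ℝ → ℝ} (hΦ : HasBarriers Φ) {D : Set (OnePoint ℂ)} (hD : IsOpen D)
    (hcap : HasPositiveCapacity (frontier D)) {z₁ : OnePoint ℂ} (hz₁ : z₁ ∈ D) {δ : ℝ≥0∞}
    (hδ : δ ≠ 0) :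
    ∃ u : OnePoint ℂ → ℝ≥0∞, PosSuperharmonic u D ∧
      (∀ ζ ∈ cuspG Φ D, 1 ≤ liminf u (𝓝[D] ζ)) ∧ u z₁ ≤ δ := by
  classical
  obtain ⟨μ, hμ, M, F₁, F₂, hF₁, hF₂, hdisj, hμ₁, hμ₂, hFD, hpot⟩ := exists_two_compacts hcap
  have hFfin : ∀ z ∈ F₁ ∪ F₂, z ∉ fin D := by
    intro z hz hzD
    have h1 := hFD z hz
    rw [hD.frontier_eq] at h1
    exact h1.2 hzD
  obtain ⟨d₀, hd₀, hd₀F⟩ : ∃ d₀ > 0, ∀ x ∈ F₁, ∀ y ∈ F₂, d₀ < dist x y := by
    obtain ⟨r, hr, h⟩ := Metric.exists_pos_forall_lt_edist hF₁ hF₂.isClosed hdisj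
    refine ⟨r, hr, ?_⟩
    intro x hx y hy
    have := h x hx y hy
    rw [edist_dist, ENNReal.lt_ofReal_iff_toReal_lt ENNReal.coe_ne_top] at this
    simpa using this
  obtain ⟨d₁, hd₁, hd₁D⟩ := exists_gap hD hz₁
  -- radii
  let ρ : ℕ → ℝ := fun n => min (min (d₀ / 3) 1) (min (1 / (2 * ((n:ℝ) + 1))) (d₁ / 2))
  have hρ : ∀ n, 0 < ρ n := fun n => by
    simp only [ρ]; positivity
  have hρ1 : ∀ n, ρ n ≤ 1 := fun n => (min_le_left _ _).trans (min_le_right _ _)
  have hρd₀ : ∀ n, ρ n ≤ d₀ / 3 := fun n => (min_le_left _ _).trans (min_le_left _ _)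
  have hρn : ∀ n : ℕ, 2 * ρ n ≤ 1 / ((n:ℝ) + 1) := by
    intro n
    have h1 : ρ n ≤ 1 / (2 * ((n:ℝ) + 1)) := (min_le_right _ _).trans (min_le_left _ _)
    calc 2 * ρ n ≤ 2 * (1 / (2 * ((n:ℝ) + 1))) := by linarith
      _ = 1 / ((n:ℝ) + 1) := by field_simp
  have hρd₁ : ∀ n, 2 * ρ n ≤ d₁ := by
    intro n
    have h1 : ρ n ≤ d₁ / 2 := (min_le_right _ _).trans (min_le_right _ _)
    linarith
  -- finite covers
  let S : ℕ → Set ℂ := fun n => {z : ℂ | (z : OnePoint ℂ) ∈ frontier D} ∩ closedBall 0 n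
  have hS : ∀ n, IsCompact (S n) := by
    intro n
    apply IsCompact.inter_left (isCompact_closedBall _ _)
    exact isClosed_frontier.preimage OnePoint.continuous_coe
  have hcover : ∀ n, ∃ t ⊆ S n, t.Finite ∧ S n ⊆ ⋃ x ∈ t, ball x (ρ n / 4) := fun n =>
    (hS n).finite_cover_balls (by have := hρ n; positivity)
  choose t htS htfin htcover using hcover
  have htD : ∀ n, ∀ c ∈ t n, c ∉ fin D := by
    intro n c hc hcD
    have h1 := (htS n hc).1
    change (c : OnePoint ℂ) ∈ frontier D at h1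
    rw [hD.frontier_eq] at h1
    exact h1.2 hcD
  -- radius at infinity
  obtain ⟨RF, hRF⟩ := (hF₁.union hF₂).isBounded.subset_ball (0:ℂ)
  obtain ⟨Rstar, hRstar0, hRstar⟩ : ∃ Rstar : ℝ, 0 < Rstar ∧ ((∞ : OnePoint ℂ) ∈ D →
      (∀ x : ℂ, Rstar < ‖x‖ → (x : OnePoint ℂ) ∈ D) ∧ RF ≤ Rstar ∧
        ∀ c ∉ fin D, ‖c‖ + 1 < Rstar) := by
    by_cases hinf : (∞ : OnePoint ℂ) ∈ D
    · obtain ⟨R, hR, h⟩ := exists_R_infty hD hinf
      refine ⟨max (R + 1) RF, lt_of_lt_of_le (by positivity) (le_max_left _ _), fun _ => ⟨?_, le_max_right _ _, ?_⟩⟩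
      · intro x hx
        exact h x (by have := le_max_left (R + 1) RF; linarith)
      · intro c hc
        have : ‖c‖ < R := by
          by_contra hcon
          push Not at hcon
          exact hc (h c hcon)
        have := le_max_left (R + 1) RF
        linarith
    · exact ⟨1, one_pos, fun h => absurd h hinf⟩
  let R₀ : ℂ → ℝ := fun c => if (∞ : OnePoint ℂ) ∈ D then Rstar else max RF (‖c‖ + 2)
  have hR₀F : ∀ c, F₁ ∪ F₂ ⊆ ball 0 (R₀ c) := by
    intro c
    refine hRF.trans (ball_subset_ball ?_)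
    simp only [R₀]
    split_ifs with h
    · exact (hRstar h).2.1
    · exact le_max_left _ _
  have hR₀c : ∀ n, ∀ c ∈ t n, closedBall c (ρ n) ⊆ ball 0 (R₀ c) := by
    intro n c hc x hx
    rw [mem_closedBall] at hx
    rw [mem_ball, dist_zero_right]
    have h1 : ‖x‖ ≤ ‖c‖ + 1 := by
      have h2 := hρ1 n
      have h3 : ‖x‖ ≤ ‖x - c‖ + ‖c‖ := by
        have := norm_add_le (x - c) c
        rwa [sub_add_cancel] at this
      rw [← dist_eq_norm] at h3
      linarith
    simp only [R₀]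
    split_ifs with h
    · exact lt_of_le_of_lt h1 ((hRstar h).2.2 c (htD n c hc))
    · exact lt_of_lt_of_le (by linarith) (le_max_right _ _)
  -- index type
  let ι := {p : ℕ × ℂ // p.2 ∈ t p.1}
  have hιc : Countable ι := by
    have h1 : {p : ℕ × ℂ | p.2 ∈ t p.1}.Countable := by
      have h2 : {p : ℕ × ℂ | p.2 ∈ t p.1} = ⋃ n : ℕ, (fun c => (n, c)) '' t n := by
        ext ⟨n, c⟩
        simp only [mem_ofPred_eq, mem_iUnion, mem_image, Prod.mk.injEq]
        constructor
        · intro h; exact ⟨n, c, h, rfl, rfl⟩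
        · rintro ⟨n', c', h, rfl, rfl⟩; exact h
      rw [h2]
      exact countable_iUnion (fun n => ((htfin n).countable.image _))
    exact h1.to_subtype
  obtain ⟨δ', hδ'pos, hδ'sum⟩ := ENNReal.exists_pos_sum_of_countable hδ ι
  -- the local functions
  have hloc : ∀ i : ι, ∃ u : OnePoint ℂ → ℝ≥0∞, Good D i.1.2 (ρ i.1.1) (R₀ i.1.2) u ∧
      (∀ z ∈ KsetG Φ D (1 / ((i.1.1:ℝ) + 1)), z ∈ ball i.1.2 (ρ i.1.1 / 4) →
        1 ≤ liminf u (𝓝[D] (z : OnePoint ℂ))) ∧ u z₁ ≤ δ' i := by
    rintro ⟨⟨n, c⟩, hc⟩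
    change c ∈ t n at hc
    -- choose the compact set
    have key : ∀ F : Set ℂ, IsCompact F → 0 < μ F → F ⊆ F₁ ∪ F₂ →
        Disjoint (closedBall c (ρ n)) F →
        ∃ u : OnePoint ℂ → ℝ≥0∞, Good D c (ρ n) (R₀ c) u ∧
      (∀ z ∈ KsetG Φ D (1 / ((n:ℝ) + 1)), z ∈ ball c (ρ n / 4) →
        1 ≤ liminf u (𝓝[D] (z : OnePoint ℂ))) ∧ u z₁ ≤ δ' ⟨⟨n, c⟩, hc⟩ := by
      intro F hF hFpos hFsub hFdisj
      obtain ⟨M₁, hM₁⟩ := pot_lower_bound hF hFpos (fun z hz => hpot z (hFsub hz))
      have hνF : (μ.restrict F) Fᶜ = 0 := by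
        rw [Measure.restrict_apply hF.isClosed.measurableSet.compl]; simp
      obtain ⟨M', -, hM'1, hM'2⟩ := kernel_bound hF hνF hM₁ c (ρ n)
      have hmpos : 0 < ((μ.restrict F) univ).toReal := by
        rw [Measure.restrict_apply_univ]
        exact ENNReal.toReal_pos hFpos.ne' (measure_ne_top μ F)
      obtain ⟨u, hu1, hu2, hu3⟩ := ball_case hΦ hD hF hνF hmpos (by
          rw [Set.disjoint_left]
          intro z hz; exact hFfin z (hFsub hz)) (htD n c hc) (hρ n) (hρ1 n) hFdisj hM'1 hM'2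
        (hFsub.trans (hR₀F c)) (hR₀c n c hc) (ε := 1 / ((n:ℝ) + 1)) (hρn n) (z₁ := z₁)
        (fun ζ hζ => (hρd₁ n).trans (hd₁D ζ hζ c (htD n c hc)))
        (δ := (δ' ⟨⟨n, c⟩, hc⟩ : ℝ)) (hδ'pos _)
      refine ⟨u, hu1, hu2, hu3.trans ?_⟩
      rw [ENNReal.ofReal_coe_nnreal]
    by_cases h1 : Disjoint (closedBall c (ρ n)) F₁
    · exact key F₁ hF₁ hμ₁ subset_union_left h1
    · apply key F₂ hF₂ hμ₂ subset_union_right
      rw [Set.disjoint_left]
      intro y hy hyF
      rw [Set.not_disjoint_iff] at h1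
      obtain ⟨x, hx, hxF⟩ := h1
      have h2 := hd₀F x hxF y hyF
      rw [mem_closedBall] at hx hy
      have h3 := dist_triangle_right x y c
      have h4 := hρd₀ n
      linarith
  choose u hugood huK huz using hloc
  refine ⟨fun p => ∑' i, u i p, ⟨?_, ?_, ?_⟩, ?_, ?_⟩
  · exact lowerSemicontinuousOn_tsum (fun i => (hugood i).lsc)
  · -- finite points
    intro z hz
    obtain ⟨d, hd, hdD⟩ := sphere_in hD hz
    -- exceptional indices
    let E : Set ι := {i | d / 2 < ρ i.1.1}
    have hE : E.Finite := by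
      obtain ⟨N, hN⟩ := exists_nat_gt (1 / d)
      have h1 : E ⊆ (fun i : ι => i.1) ⁻¹' (⋃ n ∈ Finset.range N, (fun c => (n, c)) '' t n) := by
        rintro ⟨⟨n, c⟩, hc⟩ hi
        change d / 2 < ρ n at hi
        change c ∈ t n at hc
        have h2 := hρn n
        have h3 : d < 1 / ((n:ℝ) + 1) := by linarith
        have h4 : (n:ℝ) + 1 < 1 / d := by
          rw [lt_div_iff₀ (by positivity)] at h3
          rw [lt_div_iff₀ hd]; linarith
        have h5 : n < N := by
          have : (n:ℝ) < N := by linarith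
          exact_mod_cast this
        simp only [mem_preimage, mem_iUnion]
        exact ⟨n, Finset.mem_range.mpr h5, c, hc, rfl⟩
      apply Set.Finite.subset _ h1
      apply Set.Finite.preimage (Subtype.val_injective.injOn)
      apply Set.Finite.biUnion (Finset.finite_toSet _)
      intro n _
      exact (htfin n).image _
    have hev : ∀ᶠ r in 𝓝[>] (0:ℝ), ∀ i ∈ E, circMean (u i) z r ≤ u i z := by
      rw [Filter.eventually_all_finite hE]
      intro i _
      obtain ⟨R, hR, h⟩ := (hugood i).loc z hz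
      filter_upwards [Ioo_mem_nhdsGT hR] with r hr
      exact h r hr.1 hr.2
    have hev2 : ∀ᶠ r in 𝓝[>] (0:ℝ), circMean (fun p => ∑' i, u i p) z r ≤ ∑' i, u i z := by
      filter_upwards [hev, Ioo_mem_nhdsGT (show (0:ℝ) < d / 2 by positivity)] with r hr hr2
      rw [circMean_tsum (D := D) (fun i => (hugood i).lsc) hr2.1.le (fun y hy => hdD y (by
        rw [mem_ball, mem_sphere.mp hy]; linarith [hr2.2]))]
      apply ENNReal.tsum_le_tsum
      intro i
      by_cases hi : i ∈ E
      · exact hr i hi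
      · have hi' : ρ i.1.1 ≤ d / 2 := not_lt.mp hi
        apply (hugood i).far z (d / 2) (by positivity) _ r hr2.1 hr2.2
        intro x hx
        rw [mem_ball] at hx
        refine ⟨hdD x (by rw [mem_ball]; linarith), ?_⟩
        have h1 : d ≤ dist z i.1.2 := by
          by_contra hcon
          push Not at hcon
          exact htD i.1.1 i.1.2 i.2 (hdD _ (by rw [mem_ball, dist_comm]; exact hcon))
        have h2 := dist_triangle_left z i.1.2 x
        linarith
    obtain ⟨R, hR, h⟩ := mem_nhdsGT_iff_exists_Ioo_subset.mp hev2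
    exact ⟨R, hR, fun r hr0 hr => h ⟨hr0, hr⟩⟩
  · -- infinity
    intro hinf
    have hst := hRstar hinf
    refine ⟨Rstar, hRstar0, ?_⟩
    intro r hr
    rw [circMean_tsum (D := D) (fun i => (hugood i).lsc) (by linarith) (fun y hy => hst.1 y (by
      rw [mem_sphere, dist_zero_right] at hy; rw [hy]; exact hr))]
    apply ENNReal.tsum_le_tsum
    intro i
    have hR0 : R₀ i.1.2 = Rstar := by simp only [R₀]; rw [if_pos hinf]
    apply (hugood i).inf
    · rw [hR0]; exact hst.1
    · rw [hR0]; exact hr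
  · -- boundary behaviour
    rintro ζ ⟨ε, hε, z, rfl, hz⟩
    obtain ⟨n, hn1⟩ := exists_nat_gt (max (1 / ε) ‖z‖)
    have hn2 : 1 / ((n:ℝ) + 1) ≤ ε := by
      have h1 : 1 / ε < (n:ℝ) := lt_of_le_of_lt (le_max_left _ _) hn1
      rw [div_le_iff₀ (by positivity)]
      rw [div_lt_iff₀ hε] at h1
      nlinarith
    have hn3 : ‖z‖ ≤ n := (lt_of_le_of_lt (le_max_right _ _) hn1).le
    have hz' := Kset_mono hD hn2 hz
    have hzS : z ∈ S n := ⟨hz.1, by rw [mem_closedBall, dist_zero_right]; exact hn3⟩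
    have h1 := htcover n hzS
    rw [mem_iUnion₂] at h1
    obtain ⟨c, hc, hzc⟩ := h1
    have h2 := huK ⟨⟨n, c⟩, hc⟩ z hz' hzc
    refine h2.trans ?_
    apply liminf_le_liminf
    · exact Eventually.of_forall (fun p => ENNReal.le_tsum _)
    · isBoundedDefault
    · isBoundedDefault
  · calc ∑' i, u i z₁ ≤ ∑' i, (δ' i : ℝ≥0∞) := ENNReal.tsum_le_tsum huz
      _ ≤ δ := hδ'sum.le

end Pool.Agent.Y257.CU
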