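import Pool.Agent.Helper311.CuspProof

/-! Copies of general regions `{x > 0, |y| < φ x}` and the corresponding boundary points. -/

open Set Filter Topology Metric MeasureTheory
open scoped ENNReal OnePoint

namespace Pool.Agent.Y257.CU

open Pool.Agent.Helper311.Cusp

/-- The region `W_φ = {x + iy : x > 0, |y| < φ x}`. -/
def Wg (φ : ℝ → ℝ) : Set ℂ := {w : ℂ | 0 < w.re ∧ |w.im| < φ w.re}

/-- The copy of `W_φ` with vertex `z₀` obtained by rotating by the angle `θ` and translating. -/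
def copyG (φ : ℝ → ℝ) (z₀ : ℂ) (θ : ℝ) : Set ℂ :=
  (fun w : ℂ => z₀ + Complex.exp (θ * Complex.I) * w) '' Wg φ

/-- The finite boundary points of `D` for which the radius `ε` works. -/
def KsetG (φ : ℝ → ℝ) (D : Set (OnePoint ℂ)) (ε : ℝ) : Set ℂ :=
  {z : ℂ | (z : OnePoint ℂ) ∈ frontier D ∧ ∀ x ∈ fin D ∩ ball z ε,
    z ∈ frontier (connectedComponentIn (fin D ∩ ball z ε) x) →
      ∃ θ : ℝ, connectedComponentIn (fin D ∩ ball z ε) x ⊆ copyG φ z θ}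

/-- `B_φ(D)`: the finite boundary points `z₀` of `D` such that for some `ε > 0` every connected
component of `D ∩ {|z - z₀| < ε}` with `z₀` on its boundary lies in a copy of `W_φ` with
vertex `z₀`. -/
def cuspG (φ : ℝ → ℝ) (D : Set (OnePoint ℂ)) : Set (OnePoint ℂ) :=
  {p | ∃ ε > 0, ∃ z : ℂ, p = (z : OnePoint ℂ) ∧ z ∈ KsetG φ D ε}

/-- Small barriers for the vertices of copies of `W_φ`. -/
def HasBarriers (φ : ℝ → ℝ) : Prop :=
  ∀ {U K' : Set ℂ}, (∀ z ∈ K', z ∈ closure U ∧ ∃ θ : ℝ, U ⊆ copyG φ z θ) →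
    (∀ z ∈ K', ∀ z' ∈ K', dist z z' ≤ 1) → ∀ {η δ : ℝ}, 0 < η → 0 < δ →
    ∃ G : ℂ → ℂ, DifferentiableOn ℂ G U ∧ (∀ x ∈ U, 0 ≤ (G x).re) ∧
      (∀ z ∈ K', ∃ r > 0, ∀ x ∈ U, dist x z < r → 1 ≤ (G x).re) ∧
      (∀ x ∈ U, (∀ z ∈ K', η ≤ dist x z) → (G x).re ≤ δ)

end Pool.Agent.Y257.CU
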