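import Pool.Agent.Y257.CU.Defs

/-! The disc: for a region which contains a disc tangent to the imaginary axis at `0` all boundary
points of a small disc are vertices of copies. -/

open Set Filter Topology Metric MeasureTheory
open scoped ENNReal OnePoint

namespace Pool.Agent.Y257.CU

open Pool.Agent.Helper311.Cusp

/-! The next two results are copied from `Pool/Agent/Results/MP_400747_an/CuspAll.lean`. -/

lemma circMean_one (z : ℂ) (r : ℝ) : circMean (fun _ => 1) z r = 1 := by
  unfold circMean
  rw [setLIntegral_one, Real.volume_Ioc, sub_zero]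
  exact ENNReal.div_self (by simp [Real.pi_pos]) ENNReal.ofReal_ne_top

theorem harmonicMeasure_frontier {D : Set (OnePoint ℂ)} (hD : IsOpen D) {R : ℝ}
    (hR : D ⊆ ((↑) : ℂ → OnePoint ℂ) '' ball (0 : ℂ) R) {z : OnePoint ℂ} (hz : z ∈ D) :
    harmonicMeasure D (frontier D) z = 1 := by
  classical
  apply le_antisymm
  · -- the constant function 1
    unfold harmonicMeasure
    have h1 : PosSuperharmonic (fun _ => 1) D :=
      ⟨lowerSemicontinuousOn_const, fun z _ => ⟨1, one_pos, fun r _ _ => (circMean_one z r).le⟩,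
        fun _ => ⟨1, one_pos, fun r _ => (circMean_one 0 r).le⟩⟩
    have h2 : ∀ ζ ∈ frontier D, 1 ≤ liminf (fun _ : OnePoint ℂ => (1 : ℝ≥0∞)) (𝓝[D] ζ) := by
      intro ζ _
      exact le_liminf_of_le (by isBoundedDefault) (Eventually.of_forall fun _ => le_rfl)
    exact (iInf_le _ (fun _ => 1)).trans ((iInf_le _ h1).trans (iInf_le _ h2))
  · unfold harmonicMeasure
    refine le_iInf fun u => le_iInf fun hu => le_iInf fun hbd => ?_
    by_contra hcon
    push Not at hcon
    -- extend by one
    let v : OnePoint ℂ → ℝ≥0∞ := fun p => if p ∈ D then u p else 1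
    have hvD : ∀ p ∈ D, v p = u p := fun p hp => by simp only [v]; rw [if_pos hp]
    have hvlsc : LowerSemicontinuousOn v (closure D) := by
      intro p hp
      by_cases hpD : p ∈ D
      · intro y hy
        rw [hvD p hpD] at hy
        have h1 := hu.1 p hpD y hy
        rw [hD.nhdsWithin_eq hpD] at h1
        filter_upwards [nhdsWithin_le_nhds h1, nhdsWithin_le_nhds (hD.mem_nhds hpD)] with x hx hxD
        rw [hvD x hxD]; exact hx
      · have hpf : p ∈ frontier D := by
          rw [hD.frontier_eq]; exact ⟨hp, hpD⟩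
        intro y hy
        have hvp : v p = 1 := by simp only [v]; rw [if_neg hpD]
        rw [hvp] at hy
        have h1 := eventually_lt_of_lt_liminf (lt_of_lt_of_le hy (hbd p hpf))
        rw [eventually_nhdsWithin_iff] at h1
        filter_upwards [nhdsWithin_le_nhds h1] with x hx
        by_cases hxD : x ∈ D
        · rw [hvD x hxD]; exact hx hxD
        · simp only [v]; rw [if_neg hxD]; exact hy
    have hcomp : IsCompact (closure D) := isClosed_closure.isCompact
    obtain ⟨x₀, hx₀, hmin⟩ := hvlsc.exists_isMinOn ⟨z, subset_closure hz⟩ hcomp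
    have hx₀lt : v x₀ < 1 := by
      have := hmin (subset_closure hz)
      simp only [mem_ofPred_eq] at this
      rw [hvD z hz] at this
      exact lt_of_le_of_lt this hcon
    -- the minimum set in the plane
    let E : Set ℂ := {x : ℂ | (x : OnePoint ℂ) ∈ closure D ∧ v (x : OnePoint ℂ) ≤ v x₀}
    have hvle : ∀ p, v p ≤ v x₀ → p ∈ D := by
      intro p hp
      by_contra hpD
      have : v p = 1 := by simp only [v]; rw [if_neg hpD]
      rw [this] at hp
      exact absurd (lt_of_le_of_lt hp hx₀lt) (lt_irrefl _)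
    have hEball : ∀ x ∈ E, x ∈ ball (0:ℂ) R := by
      intro x hx
      obtain ⟨y, hy, hyx⟩ := hR (hvle _ hx.2)
      rwa [OnePoint.coe_injective hyx] at hy
    have hEclosed : IsClosed E := by
      rw [← isOpen_compl_iff, isOpen_iff_mem_nhds]
      intro x hx
      by_cases hxc : (x : OnePoint ℂ) ∈ closure D
      · have hxv : v x₀ < v (x : OnePoint ℂ) := by
          by_contra h; exact hx ⟨hxc, not_lt.mp h⟩
        have h1 := hvlsc _ hxc _ hxv
        rw [eventually_nhdsWithin_iff, OnePoint.nhds_coe_eq, eventually_map] at h1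
        filter_upwards [h1] with y hy hyE
        exact absurd (hy hyE.1) (not_lt.mpr hyE.2)
      · have h1 : (((↑) : ℂ → OnePoint ℂ) ⁻¹' (closure D)ᶜ) ∈ 𝓝 x :=
          (isClosed_closure.isOpen_compl.preimage OnePoint.continuous_coe).mem_nhds hxc
        filter_upwards [h1] with y hy hyE
        exact hy hyE.1
    have hEcompact : IsCompact E := by
      apply Metric.isCompact_of_isClosed_isBounded hEclosed
      exact isBounded_ball.subset (fun x hx => hEball x hx)
    have hEne : E.Nonempty := by
      obtain ⟨y, -, hyx⟩ := hR (hvle x₀ le_rfl)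
      refine ⟨y, ?_, ?_⟩
      · rw [hyx]; exact hx₀
      · rw [hyx]
    obtain ⟨x₁, hx₁, hmax⟩ := hEcompact.exists_isMaxOn hEne continuous_norm.continuousOn
    have hx₁D : (x₁ : OnePoint ℂ) ∈ D := hvle _ hx₁.2
    obtain ⟨d, hd, hdD⟩ := sphere_in hD hx₁D
    obtain ⟨R₁, hR₁, hmean⟩ := hu.2.1 x₁ hx₁D
    obtain ⟨r, hr0, hr⟩ : ∃ r, 0 < r ∧ r < min d R₁ := exists_between (lt_min hd hR₁)
    have hrd : r < d := lt_of_lt_of_le hr (min_le_left _ _)
    have hrR : r < R₁ := lt_of_lt_of_le hr (min_le_right _ _)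
    have hsph : ∀ y ∈ sphere x₁ r, (y : OnePoint ℂ) ∈ D := fun y hy =>
      hdD y (by rw [mem_ball, mem_sphere.mp hy]; exact hrd)
    have hm := hmean r hr0 hrR
    have hge : ∀ p ∈ D, v x₀ ≤ u p := fun p hp => by
      have := hmin (subset_closure hp)
      simp only [mem_ofPred_eq] at this
      rwa [hvD p hp] at this
    have hux₁ : u (x₁ : OnePoint ℂ) ≤ v x₀ := by
      have := hx₁.2
      rwa [hvD _ hx₁D] at this
    unfold circMean at hm
    have hpi : (0:ℝ) < 2 * Real.pi := by positivity
    have hm2 : ∫⁻ t in Ioc (0 : ℝ) (2 * Real.pi), u ((circleMap x₁ r t : ℂ) : OnePoint ℂ)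
        ≤ ∫⁻ _ in Ioc (0 : ℝ) (2 * Real.pi), v x₀ := by
      rw [setLIntegral_const, Real.volume_Ioc, sub_zero]
      rw [ENNReal.div_le_iff (by simp [Real.pi_pos]) ENNReal.ofReal_ne_top] at hm
      exact hm.trans (mul_le_mul_left hux₁ _)
    have hae := ae_eq_of_ae_le_of_lintegral_le
      (μ := volume.restrict (Ioc (0 : ℝ) (2 * Real.pi)))
      (f := fun _ => v x₀) (g := fun t => u ((circleMap x₁ r t : ℂ) : OnePoint ℂ))
      (Eventually.of_forall fun t => hge _ (hsph _ (circleMap_mem_sphere x₁ hr0.le t)))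
      (by
        rw [setLIntegral_const, Real.volume_Ioc]
        exact ENNReal.mul_ne_top (ne_top_of_lt hx₀lt) ENNReal.ofReal_ne_top)
      (measurable_circle hu.1 hr0.le hsph).aemeasurable hm2
    -- all points of the circle have norm at most that of x₁
    have hnorm : ∀ t ∈ Ioo (0:ℝ) (2 * Real.pi), ‖circleMap x₁ r t‖ ≤ ‖x₁‖ := by
      have hopen : IsOpen (Ioo (0:ℝ) (2 * Real.pi) ∩ {t | ‖x₁‖ < ‖circleMap x₁ r t‖}) :=
        isOpen_Ioo.inter (isOpen_lt continuous_const (continuous_circleMap x₁ r).norm)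
      have hzero : volume (Ioo (0:ℝ) (2 * Real.pi) ∩ {t | ‖x₁‖ < ‖circleMap x₁ r t‖}) = 0 := by
        have h1 : ∀ᵐ t ∂(volume.restrict (Ioc (0 : ℝ) (2 * Real.pi))),
            ¬ (‖x₁‖ < ‖circleMap x₁ r t‖) := by
          filter_upwards [hae] with t ht
          apply not_lt.mpr
          apply hmax
          have hD' := hsph _ (circleMap_mem_sphere x₁ hr0.le t)
          refine ⟨subset_closure hD', ?_⟩
          rw [hvD _ hD']; exact ht.symm.le
        rw [ae_restrict_iff' measurableSet_Ioc, ae_iff] at h1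
        apply measure_mono_null _ h1
        rintro t ⟨ht1, ht2⟩
        simp only [mem_ofPred_eq, not_forall, not_not]
        exact ⟨Ioo_subset_Ioc_self ht1, ht2⟩
      rw [hopen.measure_eq_zero_iff (volume : Measure ℝ)] at hzero
      intro t ht
      by_contra h
      have : t ∈ Ioo (0:ℝ) (2 * Real.pi) ∩ {t | ‖x₁‖ < ‖circleMap x₁ r t‖} := ⟨ht, not_le.mp h⟩
      rw [hzero] at this
      exact this
    have e1 := hnorm (Real.pi / 2) ⟨by positivity, by linarith [Real.pi_pos]⟩
    have e2 := hnorm (3 * Real.pi / 2) ⟨by positivity, by linarith [Real.pi_pos]⟩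
    have c1 : circleMap x₁ r (Real.pi / 2) = x₁ + r * Complex.I := by
      unfold circleMap
      congr 2
      rw [show (((Real.pi / 2 : ℝ) : ℂ)) = (Real.pi : ℂ) / 2 by push_cast; ring,
        Complex.exp_pi_div_two_mul_I]
    have c2 : circleMap x₁ r (3 * Real.pi / 2) = x₁ - r * Complex.I := by
      unfold circleMap
      have : Complex.exp (((3 * Real.pi / 2 : ℝ) : ℂ) * Complex.I) = - Complex.I := by
        have h3 : ((3 * Real.pi / 2 : ℝ) : ℂ) * Complex.I
            = (Real.pi : ℂ) * Complex.I + (Real.pi : ℂ) / 2 * Complex.I := by push_cast; ring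
        rw [h3, Complex.exp_add, Complex.exp_pi_mul_I, Complex.exp_pi_div_two_mul_I]; ring
      rw [this]; ring
    rw [c1] at e1
    rw [c2] at e2
    have s1 := pow_le_pow_left₀ (norm_nonneg _) e1 2
    have s2 := pow_le_pow_left₀ (norm_nonneg _) e2 2
    rw [← Complex.normSq_eq_norm_sq, ← Complex.normSq_eq_norm_sq, Complex.normSq_apply,
      Complex.normSq_apply] at s1 s2
    simp only [Complex.add_re, Complex.add_im, Complex.sub_re, Complex.sub_im, Complex.mul_re,
      Complex.mul_im, Complex.ofReal_re, Complex.ofReal_im, Complex.I_re, Complex.I_im,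
      mul_zero, mul_one, sub_zero, add_zero, sub_self] at s1 s2
    nlinarith [sq_pos_of_pos hr0]

end Pool.Agent.Y257.CU
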